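import Mathlib
import Pool.Graph.R_seed8.H393R2.Roth6

/-! Roth's lemma with an explicit dependence on the number of variables and on the index. -/

set_option autoImplicit false

open Finset

namespace Pool.Agent.H723.QS

open Pool.Agent.H393R2 Pool.Agent.H393R2.RothNS

/-- Roth's lemma for `m` variables, index `σ` and parameter `ω` -/
def RothE (m : ℕ) (σ ω : ℝ) : Prop :=
    ∀ (r : Fin m → ℕ) (R : ℝ), 0 < R → (∀ h, 0 < r h) →
      (∀ i j : Fin m, i < j → (r i : ℝ) ≤ ω * r j) → (∀ h, (r h : ℝ) ≤ ω * R) →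
      ∀ (p q : Fin m → ℤ), (∀ h, IsCoprime (p h) (q h)) → (∀ h, q h ≠ 0) →
        (∀ h, R ≤ r h * Real.log (max |(p h : ℝ)| |(q h : ℝ)|)) →
        ∀ P : MvPolynomial (Fin m) ℤ, P ≠ 0 → (∀ a ∈ P.support, ∀ h, a h ≤ r h) →
          (∀ a, |((MvPolynomial.coeff a P : ℤ) : ℝ)| ≤ Real.exp (ω * R)) →
          ∃ κ : Fin m →₀ ℕ, wt r κ < σ ∧
            MvPolynomial.eval (fun h => (p h : ℚ) / q h)
              (DD κ (MvPolynomial.map (Int.castRingHom ℚ) P)) ≠ 0

theorem RothE.mono {m : ℕ} {σ ω ω' : ℝ} (h : RothE m σ ω) (hω : ω' ≤ ω) : RothE m σ ω' := by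
  intro r R hR hr hri hrR p q hpq hq hlog P hP hdeg hco
  refine h r R hR hr (fun i j hij => (hri i j hij).trans ?_) (fun h => (hrR h).trans ?_) p q hpq hq
    hlog P hP hdeg (fun a => (hco a).trans ?_)
  · exact mul_le_mul_of_nonneg_right hω (Nat.cast_nonneg _)
  · exact mul_le_mul_of_nonneg_right hω hR.le
  · exact Real.exp_le_exp.mpr (mul_le_mul_of_nonneg_right hω hR.le)

theorem rothE_zero (σ : ℝ) (hσ : 0 < σ) : RothE 0 σ 1 := by
  intro r R _ _ _ _ p q _ _ _ P hP _ _
  refine ⟨0, by simpa [wt] using hσ, ?_⟩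
  rw [← coeff_TT]
  have h1 : P = MvPolynomial.C (MvPolynomial.coeff 0 P) := MvPolynomial.eq_C_of_isEmpty P
  have h2 : MvPolynomial.coeff 0 P ≠ 0 := by
    intro h; apply hP; rw [h1, h, map_zero]
  rw [h1, MvPolynomial.map_C]
  have hTC : ∀ (ζ : Fin 0 → ℚ) (c : ℚ), TT ζ (MvPolynomial.C c) = MvPolynomial.C c :=
    fun ζ c => by simp [TT]
  rw [hTC, MvPolynomial.coeff_C, if_pos rfl]
  simpa using h2

theorem rothE_succ (m : ℕ) (σ₁ : ℝ) (hσ₁pos : 0 < σ₁) (hσ₁le : σ₁ ≤ 1) (ω₀ : ℝ) (hω₀ : 0 < ω₀)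
    (H : RothE m (σ₁ ^ 2 / 32) ω₀) :
    RothE (m + 1) σ₁ (min (σ₁ / 2) (min ω₀ (σ₁ ^ 2 / 32 / 2)) / (1 + 3 * (m + 1))) := by
  classical
  have hσ₁le' : σ₁ ≤ σ₁ := le_refl _
  set σ' : ℝ := σ₁ ^ 2 / 32 with hσ'
  have hσ'pos : 0 < σ' := by positivity
  set ωm : ℝ := min (σ₁ / 2) (min ω₀ (σ' / 2)) with hωm
  have hωmpos : 0 < ωm := lt_min (by positivity) (lt_min hω₀ (by positivity))
  set ω : ℝ := ωm / (1 + 3 * (m + 1)) with hω
  have hden : (0 : ℝ) < 1 + 3 * (m + 1) := by positivity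
  have hωpos : 0 < ω := by positivity
  have hωmul : ω * (1 + 3 * (m + 1)) = ωm := by rw [hω]; field_simp
  have hωle : ω ≤ ωm := by
    rw [← hωmul]; apply le_mul_of_one_le_right hωpos.le
    have : (0 : ℝ) ≤ m := by positivity
    linarith
  have hωmσ : ωm ≤ σ₁ / 2 := min_le_left _ _
  have hωm0 : ωm ≤ ω₀ := (min_le_right _ _).trans (min_le_left _ _)
  have hωm1 : ωm ≤ σ' / 2 := (min_le_right _ _).trans (min_le_right _ _)
  intro r R hR hr hri hrR p q hpq hq hlog P hP hdeg hco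
  by_contra hcon
  push Not at hcon
  set ζ : Fin (m+1) → ℚ := fun h => (p h : ℚ) / q h with hζ
  set PQ : MvPolynomial (Fin (m+1)) ℚ := MvPolynomial.map (Int.castRingHom ℚ) P with hPQ
  have hinj : Function.Injective (Int.castRingHom ℚ) := RingHom.injective_int _
  have hPQ0 : PQ ≠ 0 := by
    intro h
    apply hP
    exact (MvPolynomial.map_injective _ hinj) (by rw [← hPQ, h, map_zero])
  have hsupPQ : ∀ a ∈ PQ.support, ∀ h, a h ≤ r h := by
    intro a ha h
    apply hdeg a _ h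
    exact MvPolynomial.support_map_subset _ _ ha
  -- index of P
  have hPI : InI r ζ σ₁ PQ := by
    intro κ hκ
    rw [coeff_TT] at hκ
    by_contra hlt
    exact hκ (hcon κ (lt_of_lt_of_le (not_le.mp hlt) hσ₁le'))
  obtain ⟨k, hk0, hkr, f, g, hfg, hf, hg⟩ := sep_decomp PQ hPQ0 (r 0) (fun a ha => hsupPQ a ha 0)
  obtain ⟨μ, hμ, hU⟩ := gw_mv f hf
  have hV := gw_poly g hg
  set A : Matrix (Fin k) (Fin k) (MvPolynomial (Fin m) ℚ) := Matrix.of fun a i => DD (μ a) (f i) with hA
  set B : Matrix (Fin k) (Fin k) (Polynomial ℚ) :=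
    Matrix.of fun b i : Fin k => Polynomial.hasseDeriv (b : ℕ) (g i) with hB
  set U := A.det with hUdef
  set V := B.det with hVdef
  let E : Matrix (Fin k) (Fin k) (MvPolynomial (Fin (m+1)) ℤ) :=
    Matrix.of fun a b => DD (Finsupp.cons (b : ℕ) (μ a)) P
  have hEmap : E.map (MvPolynomial.map (Int.castRingHom ℚ)) =
      (A.map (i1 ℚ m)) * (B.map (i2 ℚ m)).transpose := by
    ext a b : 1
    rw [Matrix.map_apply, Matrix.mul_apply]
    simp only [E, Matrix.of_apply, DD_map]
    rw [← hPQ, hfg, map_sum]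
    apply Finset.sum_congr rfl
    intro i _
    rw [DD_sep]
    rfl
  set W := E.det with hW
  have hWmap : MvPolynomial.map (Int.castRingHom ℚ) W = i1 ℚ m U * i2 ℚ m V := by
    have h1 : MvPolynomial.map (Int.castRingHom ℚ) W =
        (E.map (MvPolynomial.map (Int.castRingHom ℚ))).det := by
      rw [hW]
      exact RingHom.map_det _ _
    rw [h1, hEmap, Matrix.det_mul, Matrix.det_transpose]
    congr 1
    · rw [hUdef]; exact (RingHom.map_det _ _).symm
    · rw [hVdef]; exact (RingHom.map_det _ _).symm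
  have hWcoeff : ∀ n a, ((MvPolynomial.coeff (Finsupp.cons n a) W : ℤ) : ℚ) =
      MvPolynomial.coeff a U * V.coeff n := by
    intro n a
    rw [← coeff_sep, ← hWmap, MvPolynomial.coeff_map]
    simp
  have hr' : ∀ h, (0 : ℝ) < r h := fun h => by exact_mod_cast hr h
  have hk0' : (0 : ℝ) < k := by exact_mod_cast hk0
  -- index of W
  set s : ℝ := σ₁ - ω with hs
  have hs0 : 0 < s := by
    have : ω ≤ σ₁ / 2 := hωle.trans hωmσ
    linarith
  have hs1 : s ≤ 1 := by linarith
  have hentry : ∀ a b : Fin k, InI r ζ (max 0 (s - (b : ℕ) / (r 0 : ℝ)))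
      ((E.map (MvPolynomial.map (Int.castRingHom ℚ))) a b) := by
    intro a b
    rw [Matrix.map_apply]
    simp only [E, Matrix.of_apply, DD_map]
    rw [← hPQ]
    have h1 := InI_DD hPI (Finsupp.cons (b : ℕ) (μ a))
    have hwt : wt r (Finsupp.cons (b : ℕ) (μ a)) ≤ (b : ℕ) / (r 0 : ℝ) + ω := by
      rw [wt, Fin.sum_univ_succ, Finsupp.cons_zero]
      apply add_le_add le_rfl
      have h2 : ∀ h : Fin m, ((Finsupp.cons (b : ℕ) (μ a) : Fin (m+1) →₀ ℕ) h.succ : ℝ) / r h.succ ≤
          (μ a h : ℝ) * (ω / r 0) := by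
        intro h
        rw [Finsupp.cons_succ, div_eq_mul_inv]
        apply mul_le_mul_of_nonneg_left _ (by positivity)
        have h3 := hri 0 h.succ (Fin.succ_pos h)
        rw [inv_le_iff_one_le_mul₀ (hr' _), div_mul_eq_mul_div, le_div_iff₀ (hr' 0), one_mul]
        exact h3
      refine (Finset.sum_le_sum (fun h _ => h2 h)).trans ?_
      rw [← Finset.sum_mul]
      have h4 : (∑ i : Fin m, ((μ a i : ℕ) : ℝ)) ≤ r 0 := by
        have : ∑ i, μ a i ≤ r 0 := (hμ a).trans (by have := a.isLt; omega)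
        exact_mod_cast this
      calc (∑ i : Fin m, ((μ a i : ℕ) : ℝ)) * (ω / r 0) ≤ (r 0 : ℝ) * (ω / r 0) :=
            mul_le_mul_of_nonneg_right h4 (by have := hr' 0; positivity)
        _ = ω := by have := hr' 0; field_simp
    rcases le_total 0 (s - (b : ℕ) / (r 0 : ℝ)) with h | h
    · rw [max_eq_right h]
      exact InI_mono (by linarith) h1
    · rw [max_eq_left h]
      exact InI_zero _
  have hWI' : InI r ζ (∑ b : Fin k, max 0 (s - (b : ℕ) / (r 0 : ℝ))) (i1 ℚ m U * i2 ℚ m V) := by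
    rw [← hWmap]
    have h1 : MvPolynomial.map (Int.castRingHom ℚ) W =
        (E.map (MvPolynomial.map (Int.castRingHom ℚ))).det := by
      rw [hW]
      exact RingHom.map_det _ _
    rw [h1]
    exact InI_det _ hentry
  have hlow := sum_lower (r 0) (hr 0) s hs0 hs1 k hkr
  -- size of W
  have hexp : l1 W ≤ Real.exp (ωm * (k * R)) := by
    set N := ∑ h, r h with hN
    have hPl1 : l1 P ≤ 2 ^ N * Real.exp (ω * R) := by
      rw [l1]
      refine (Finset.sum_le_card_nsmul _ _ (Real.exp (ω * R)) (fun a _ => hco a)).trans ?_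
      rw [nsmul_eq_mul]
      apply mul_le_mul_of_nonneg_right _ (Real.exp_pos _).le
      have := card_support_le P r hdeg
      exact_mod_cast this
    have hE : ∀ a b, l1 (E a b) ≤ 4 ^ N * Real.exp (ω * R) := by
      intro a b
      simp only [E, Matrix.of_apply]
      refine (l1_DD _ P N ?_).trans ?_
      · intro c hc
        exact Finset.sum_le_sum (fun h _ => hdeg c hc h)
      · calc (2 : ℝ) ^ N * l1 P ≤ 2 ^ N * (2 ^ N * Real.exp (ω * R)) :=
              mul_le_mul_of_nonneg_left hPl1 (by positivity)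
          _ = 4 ^ N * Real.exp (ω * R) := by
              rw [← mul_assoc, ← mul_pow]; norm_num
    have h1 := l1_det E _ hE
    have hr0N : r 0 ≤ N := Finset.single_le_sum (f := r) (fun _ _ => Nat.zero_le _) (Finset.mem_univ 0)
    have h2 : (k.factorial : ℝ) ≤ (2 ^ N) ^ k := by
      have h3 : k ≤ 2 ^ N := by
        calc k ≤ r 0 + 1 := hkr
          _ ≤ 2 ^ (r 0) := Nat.lt_two_pow_self
          _ ≤ 2 ^ N := Nat.pow_le_pow_right (by norm_num) hr0N
      have h4 : k.factorial ≤ (2 ^ N) ^ k := (Nat.factorial_le_pow k).trans (Nat.pow_le_pow_left h3 k)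
      exact_mod_cast h4
    have hNR : (N : ℝ) ≤ (m + 1) * (ω * R) := by
      rw [hN]; push_cast
      refine (Finset.sum_le_card_nsmul _ _ (ω * R) (fun h _ => hrR h)).trans ?_
      simp
    have h8 : (8 : ℝ) ≤ Real.exp 3 := by
      have h9 : (2 : ℝ) ≤ Real.exp 1 := by
        have := Real.add_one_le_exp (1 : ℝ); linarith
      have h10 : Real.exp 3 = Real.exp 1 ^ 3 := by
        rw [← Real.exp_nat_mul]; norm_num
      rw [h10]
      calc (8 : ℝ) = 2 ^ 3 := by norm_num
        _ ≤ _ := pow_le_pow_left₀ (by norm_num) h9 3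
    have h11 : (8 : ℝ) ^ N * Real.exp (ω * R) ≤ Real.exp (ωm * R) := by
      calc (8 : ℝ) ^ N * Real.exp (ω * R) ≤ Real.exp 3 ^ N * Real.exp (ω * R) :=
            mul_le_mul_of_nonneg_right (pow_le_pow_left₀ (by norm_num) h8 N) (Real.exp_pos _).le
        _ = Real.exp (N * 3 + ω * R) := by rw [← Real.exp_nat_mul, Real.exp_add]
        _ ≤ Real.exp (ωm * R) := by
          apply Real.exp_le_exp.mpr
          rw [← hωmul]
          nlinarith
    calc l1 W ≤ (k.factorial : ℝ) * (4 ^ N * Real.exp (ω * R)) ^ k := h1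
      _ ≤ (2 ^ N) ^ k * (4 ^ N * Real.exp (ω * R)) ^ k :=
          mul_le_mul_of_nonneg_right h2 (by positivity)
      _ = ((8 : ℝ) ^ N * Real.exp (ω * R)) ^ k := by
          rw [← mul_pow, ← mul_assoc, ← mul_pow]; norm_num
      _ ≤ (Real.exp (ωm * R)) ^ k := pow_le_pow_left₀ (by positivity) h11 k
      _ = Real.exp (ωm * (k * R)) := by
          rw [← Real.exp_nat_mul]; congr 1; ring
  -- the integral polynomials
  have hkR : 0 < (k : ℝ) * R := by positivity
  obtain ⟨n₀, hn₀⟩ : ∃ n, V.coeff n ≠ 0 := by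
    by_contra h
    push Not at h
    exact hV (Polynomial.ext (by simpa using h))
  obtain ⟨a₀, ha₀⟩ : ∃ a, MvPolynomial.coeff a U ≠ 0 := MvPolynomial.ne_zero_iff.mp hU
  -- U₁
  set U₁ : MvPolynomial (Fin m) ℤ := (MvPolynomial.finSuccEquiv ℤ m W).coeff n₀ with hU₁
  have hU₁c : ∀ a, MvPolynomial.coeff a U₁ = MvPolynomial.coeff (Finsupp.cons n₀ a) W :=
    fun a => MvPolynomial.finSuccEquiv_coeff_coeff _ _ _
  have hU₁map : MvPolynomial.map (Int.castRingHom ℚ) U₁ = V.coeff n₀ • U := by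
    ext a
    rw [MvPolynomial.coeff_map, MvPolynomial.coeff_smul, hU₁c]
    have := hWcoeff n₀ a
    simp only [eq_intCast, smul_eq_mul]
    rw [this, mul_comm]
  have hU₁0 : U₁ ≠ 0 := by
    intro h
    rw [h, map_zero] at hU₁map
    exact (smul_ne_zero hn₀ hU) hU₁map.symm
  have hdegW : ∀ h, MvPolynomial.degreeOf h W ≤ k * r h := by
    intro h
    apply support_det
    intro a b
    rw [MvPolynomial.degreeOf_le_iff]
    intro c hc
    simp only [E, Matrix.of_apply] at hc
    rw [MvPolynomial.mem_support_iff, coeff_DD] at hc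
    have := hdeg _ (MvPolynomial.mem_support_iff.mpr (right_ne_zero_of_mul hc)) h
    rw [Finsupp.add_apply] at this
    omega
  obtain ⟨κ', hκ'wt, hκ'⟩ := H (fun h => k * r h.succ) (k * R) hkR
    (fun h => Nat.mul_pos hk0 (hr _))
    (by
      intro i j hij
      have h1 := hri i.succ j.succ (Fin.succ_lt_succ_iff.mpr hij)
      push_cast
      calc (k : ℝ) * r i.succ ≤ k * (ω * r j.succ) := mul_le_mul_of_nonneg_left h1 hk0'.le
        _ ≤ k * (ω₀ * r j.succ) := by
            apply mul_le_mul_of_nonneg_left _ hk0'.le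
            exact mul_le_mul_of_nonneg_right (hωle.trans hωm0) (hr' _).le
        _ = ω₀ * (k * r j.succ) := by ring)
    (by
      intro h
      push_cast
      calc (k : ℝ) * r h.succ ≤ k * (ω * R) := mul_le_mul_of_nonneg_left (hrR _) hk0'.le
        _ ≤ k * (ω₀ * R) := by
            apply mul_le_mul_of_nonneg_left _ hk0'.le
            exact mul_le_mul_of_nonneg_right (hωle.trans hωm0) hR.le
        _ = ω₀ * (k * R) := by ring)
    (fun h => p h.succ) (fun h => q h.succ) (fun h => hpq _) (fun h => hq _)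
    (by
      intro h
      push_cast
      rw [mul_assoc]
      exact mul_le_mul_of_nonneg_left (hlog _) hk0'.le)
    U₁ hU₁0
    (by
      intro a ha h
      rw [MvPolynomial.mem_support_iff, hU₁c] at ha
      have := (MvPolynomial.degreeOf_le_iff.mp (hdegW h.succ)) _ (MvPolynomial.mem_support_iff.mpr ha)
      rwa [Finsupp.cons_succ] at this)
    (by
      intro a
      rw [hU₁c]
      refine (coeff_le_l1 _ _).trans (hexp.trans ?_)
      apply Real.exp_le_exp.mpr
      exact mul_le_mul_of_nonneg_right hωm0 hkR.le)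
  -- V₁
  set Nv : ℕ := k * r 0 with hNv
  set V₁ : Polynomial ℤ := ∑ n ∈ Finset.range (Nv + 1),
    Polynomial.monomial n (MvPolynomial.coeff (Finsupp.cons n a₀) W) with hV₁
  have hV₁c : ∀ n, V₁.coeff n = MvPolynomial.coeff (Finsupp.cons n a₀) W := by
    intro n
    rw [hV₁, Polynomial.finsetSum_coeff]
    simp_rw [Polynomial.coeff_monomial]
    rw [Finset.sum_ite_eq']
    split_ifs with hn
    · rfl
    · by_contra hne
      have := (MvPolynomial.degreeOf_le_iff.mp (hdegW 0)) _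
        (MvPolynomial.mem_support_iff.mpr (Ne.symm hne))
      rw [Finsupp.cons_zero] at this
      apply hn
      rw [Finset.mem_range]
      omega
  have hV₁map : V₁.map (Int.castRingHom ℚ) = MvPolynomial.coeff a₀ U • V := by
    ext n
    rw [Polynomial.coeff_map, Polynomial.coeff_smul, hV₁c]
    have := hWcoeff n a₀
    simp only [eq_intCast, smul_eq_mul]
    exact this
  have hV₁0 : V₁ ≠ 0 := by
    intro h
    rw [h, Polynomial.map_zero] at hV₁map
    exact (smul_ne_zero ha₀ hV) hV₁map.symm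
  obtain ⟨ν, hνwt, hν⟩ := one_var σ' (σ' / 2) (k * R) (by linarith) hσ'pos hkR (k * r 0)
    (Nat.mul_pos hk0 (hr 0)) (p 0) (q 0) (hpq 0) (hq 0)
    (by
      push_cast
      rw [mul_assoc]
      exact mul_le_mul_of_nonneg_left (hlog _) hk0'.le) V₁ hV₁0
    (by
      intro n
      rw [hV₁c]
      refine (coeff_le_l1 _ _).trans (hexp.trans ?_)
      apply Real.exp_le_exp.mpr
      exact mul_le_mul_of_nonneg_right hωm1 hkR.le)
  -- combine
  have hUne : MvPolynomial.eval (fun h : Fin m => ζ h.succ) (DD κ' U) ≠ 0 := by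
    intro h0
    apply hκ'
    rw [hU₁map, map_smul, MvPolynomial.smul_eval]
    simp only [hζ] at h0
    rw [h0, mul_zero]
  have hVne : (Polynomial.hasseDeriv ν V).eval (ζ 0) ≠ 0 := by
    intro h0
    apply hν
    rw [hV₁map, map_smul, Polynomial.eval_smul]
    simp only [hζ] at h0
    rw [h0, smul_zero]
  have hfin := hWI' (Finsupp.cons ν κ') (by
    rw [coeff_TT, DD_sep, map_mul, eval_i1, eval_i2]
    exact mul_ne_zero hUne hVne)
  have hwt2 : wt r (Finsupp.cons ν κ') < k * σ' + k * σ' := by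
    rw [wt, Fin.sum_univ_succ, Finsupp.cons_zero]
    apply add_lt_add_of_lt_of_le
    · push_cast at hνwt
      rw [div_lt_iff₀ (by have := hr' 0; positivity)] at hνwt
      rw [div_lt_iff₀ (hr' 0)]
      calc (ν : ℝ) < σ' * (k * r 0) := hνwt
        _ = k * σ' * r 0 := by ring
    · have h1 : ∑ h : Fin m, ((Finsupp.cons ν κ' : Fin (m+1) →₀ ℕ) h.succ : ℝ) / r h.succ =
          k * wt (fun h : Fin m => k * r h.succ) κ' := by
        rw [wt, Finset.mul_sum]
        refine Finset.sum_congr rfl (fun h _ => ?_)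
        rw [Finsupp.cons_succ]
        push_cast
        have := hr' h.succ
        field_simp
      rw [h1]
      exact mul_le_mul_of_nonneg_left hκ'wt.le hk0'.le
  have hsge : σ₁ / 2 ≤ s := by
    have : ω ≤ σ₁ / 2 := hωle.trans hωmσ
    linarith
  have hs2 : σ₁ ^ 2 / 4 ≤ s ^ 2 := by nlinarith
  have : (k : ℝ) * (σ₁ ^ 2 / 4) / 4 ≤ k * s ^ 2 / 4 := by
    apply div_le_div_of_nonneg_right _ (by norm_num)
    exact mul_le_mul_of_nonneg_left hs2 hk0'.le
  have hσ'2 : k * σ' + k * σ' = (k : ℝ) * (σ₁ ^ 2 / 4) / 4 := by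
    rw [hσ']; ring
  linarith


/-- the explicit parameter -/
noncomputable def om (m : ℕ) (σ : ℝ) : ℝ := (σ / 64) ^ (2 ^ m) / (4 + 3 * m) ^ m

theorem om_pos (m : ℕ) (σ : ℝ) (hσ : 0 < σ) : 0 < om m σ := by
  unfold om; positivity

theorem rothE (m : ℕ) : ∀ σ : ℝ, 0 < σ → σ ≤ 1 → RothE m σ (om m σ) := by
  induction m with
  | zero =>
    intro σ h0 h1
    refine (rothE_zero σ h0).mono ?_
    simp only [om, pow_zero, pow_one, div_one]
    linarith
  | succ m ih =>
    intro σ h0 h1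
    have hs : 0 < σ ^ 2 / 32 := by positivity
    have hs1 : σ ^ 2 / 32 ≤ 1 := by nlinarith
    refine (rothE_succ m σ h0 h1 (om m (σ ^ 2 / 32)) (om_pos m _ hs) (ih _ hs hs1)).mono ?_
    have hden : (0 : ℝ) < 1 + 3 * (m + 1) := by positivity
    rw [le_div_iff₀ hden]
    have hx0 : 0 < σ / 64 := by positivity
    have hx1 : σ / 64 ≤ 1 := by linarith
    have hD : (1 : ℝ) ≤ (4 + 3 * ((m + 1 : ℕ) : ℝ)) ^ m := by
      apply one_le_pow₀
      push_cast
      have : (0 : ℝ) ≤ m := by positivity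
      linarith
    have hD2 : (1 + 3 * ((m : ℝ) + 1)) ≤ (4 + 3 * ((m + 1 : ℕ) : ℝ)) := by
      push_cast; linarith
    have hD3 : (4 + 3 * (m : ℝ)) ^ m ≤ (4 + 3 * ((m + 1 : ℕ) : ℝ)) ^ m := by
      apply pow_le_pow_left₀ (by positivity)
      push_cast; linarith
    have key : ∀ y : ℝ, (σ / 64) ^ (2 ^ (m + 1)) / (4 + 3 * ((m + 1 : ℕ) : ℝ)) ^ m ≤ y →
        om (m + 1) σ * (1 + 3 * (m + 1)) ≤ y := by
      intro y hy
      refine le_trans ?_ hy
      unfold om
      rw [pow_succ (4 + 3 * ((m + 1 : ℕ) : ℝ)) m, div_mul_eq_mul_div, div_le_div_iff₀ (by positivity)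
        (by positivity)]
      have h2 : (0 : ℝ) ≤ (σ / 64) ^ (2 ^ (m + 1)) * (4 + 3 * ((m + 1 : ℕ) : ℝ)) ^ m := by positivity
      nlinarith
    have hle : (σ / 64) ^ (2 ^ (m + 1)) / (4 + 3 * ((m + 1 : ℕ) : ℝ)) ^ m ≤
        (σ / 64) ^ (2 ^ (m + 1)) := by
      apply div_le_self (by positivity) hD
    have hp1 : (σ / 64) ^ (2 ^ (m + 1)) ≤ (σ / 64) ^ 2 := by
      apply pow_le_pow_of_le_one hx0.le hx1
      have : 1 ≤ 2 ^ m := Nat.one_le_two_pow
      rw [pow_succ]; omega
    have hsq : (σ / 64) ^ 2 ≤ σ / 64 := by nlinarith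
    refine le_min ?_ (le_min ?_ ?_)
    · apply key
      linarith
    · apply key
      unfold om
      have e1 : (σ / 64) ^ (2 ^ (m + 1)) = ((σ / 64) ^ 2) ^ (2 ^ m) := by
        rw [← pow_mul]; congr 1; rw [pow_succ]; ring
      rw [e1]
      apply div_le_div₀ (by positivity) _ (by positivity) hD3
      apply pow_le_pow_left₀ (by positivity)
      have : 0 < σ ^ 2 := by positivity
      linarith
    · apply key
      have : 0 < σ ^ 2 := by positivity
      linarith

end Pool.Agent.H723.QS
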