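import Mathlib
import Pool.Agent.H723.QS.QCore

/-! The codimension one subspace theorem: a finite sequence of approximations with an explicit
length and explicit growth. -/

set_option autoImplicit false

open Finset

namespace Pool.Agent.H723.QS

open Pool.Agent.H393R2

/-- the size of the parameter of Roth's lemma -/
theorem inv_om_le (m : ℕ) (τ : ℝ) (hτ : 0 < τ) (a : ℝ) (ha : 64 / τ ≤ a) :
    1 / om m τ ≤ Real.exp (Real.exp (4 * m + a + 5)) := by
  have ha0 : 0 < a := lt_of_lt_of_le (by positivity) ha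
  have h1 : 1 / om m τ = (64 / τ) ^ (2 ^ m) * (4 + 3 * (m : ℝ)) ^ m := by
    unfold om
    rw [one_div, inv_div, div_eq_mul_inv, ← inv_pow, inv_div, mul_comm]
  have h2 : (64 / τ) ^ (2 ^ m) ≤ Real.exp (((2 ^ m : ℕ) : ℝ) * a) := by
    rw [Real.exp_nat_mul]
    apply pow_le_pow_left₀ (by positivity)
    have := Real.add_one_le_exp a
    linarith
  have h3 : (4 + 3 * (m : ℝ)) ^ m ≤ Real.exp ((m : ℝ) * (4 + 3 * m)) := by
    rw [Real.exp_nat_mul]
    apply pow_le_pow_left₀ (by positivity)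
    have := Real.add_one_le_exp (4 + 3 * (m : ℝ))
    linarith
  have h4 : ((2 ^ m : ℕ) : ℝ) ≤ Real.exp m := by
    have h5 : (2 : ℝ) ≤ Real.exp 1 := by
      have := Real.add_one_le_exp (1 : ℝ); linarith
    have h6 : Real.exp m = Real.exp 1 ^ m := by rw [← Real.exp_nat_mul, mul_one]
    rw [h6]
    push_cast
    exact pow_le_pow_left₀ (by norm_num) h5 m
  have h5 : a ≤ Real.exp a := by
    have := Real.add_one_le_exp a; linarith
  have h6 : (m : ℝ) ≤ Real.exp m := by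
    have := Real.add_one_le_exp (m : ℝ); linarith
  have h7 : 4 + 3 * (m : ℝ) ≤ Real.exp (4 + 3 * m) := by
    have := Real.add_one_le_exp (4 + 3 * (m : ℝ)); linarith
  rw [h1]
  calc (64 / τ) ^ (2 ^ m) * (4 + 3 * (m : ℝ)) ^ m
      ≤ Real.exp (((2 ^ m : ℕ) : ℝ) * a) * Real.exp ((m : ℝ) * (4 + 3 * m)) :=
        mul_le_mul h2 h3 (by positivity) (Real.exp_pos _).le
    _ = Real.exp (((2 ^ m : ℕ) : ℝ) * a + (m : ℝ) * (4 + 3 * m)) := by rw [Real.exp_add]
    _ ≤ Real.exp (Real.exp (4 * m + a + 5)) := by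
        apply Real.exp_le_exp.mpr
        have h8 : ((2 ^ m : ℕ) : ℝ) * a ≤ Real.exp m * Real.exp a :=
          mul_le_mul h4 h5 ha0.le (Real.exp_pos _).le
        have h9 : (m : ℝ) * (4 + 3 * m) ≤ Real.exp m * Real.exp (4 + 3 * m) :=
          mul_le_mul h6 h7 (by positivity) (Real.exp_pos _).le
        rw [← Real.exp_add] at h8 h9
        have hm0 : (0 : ℝ) ≤ m := Nat.cast_nonneg _
        have h10 : Real.exp ((m : ℝ) + a) ≤ Real.exp (4 * m + a + 4) := by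
          apply Real.exp_le_exp.mpr; linarith
        have h11 : Real.exp ((m : ℝ) + (4 + 3 * m)) ≤ Real.exp (4 * m + a + 4) := by
          apply Real.exp_le_exp.mpr; linarith
        have h12 : Real.exp (4 * m + a + 5) = Real.exp (4 * m + a + 4) * Real.exp 1 := by
          rw [← Real.exp_add]; congr 1; ring
        have h13 : (2 : ℝ) ≤ Real.exp 1 := by
          have := Real.add_one_le_exp (1 : ℝ); linarith
        have h14 := Real.exp_pos (4 * m + a + 4)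
        rw [h12]
        nlinarith

theorem exp_add_le (x y : ℝ) (hx : 0 ≤ x) (hy : 0 ≤ y) :
    Real.exp x + Real.exp y ≤ Real.exp (x + y + 1) := by
  have h1 : Real.exp x ≤ Real.exp (x + y) := Real.exp_le_exp.mpr (by linarith)
  have h2 : Real.exp y ≤ Real.exp (x + y) := Real.exp_le_exp.mpr (by linarith)
  have h3 : Real.exp (x + y + 1) = Real.exp (x + y) * Real.exp 1 := by rw [← Real.exp_add]
  have h4 : (2 : ℝ) ≤ Real.exp 1 := by
    have := Real.add_one_le_exp (1 : ℝ); linarith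
  have h5 := Real.exp_pos (x + y)
  rw [h3]
  nlinarith

theorem le_exp_self (y : ℝ) : y ≤ Real.exp y := by
  have := Real.add_one_le_exp y; linarith

theorem om_le_one (m : ℕ) (τ : ℝ) (hτ0 : 0 < τ) (hτ1 : τ ≤ 1) : om m τ ≤ 1 := by
  unfold om
  rw [div_le_one (by positivity)]
  have h1 : (τ / 64) ^ (2 ^ m) ≤ 1 := pow_le_one₀ (by positivity) (by linarith)
  have h2 : (1 : ℝ) ≤ (4 + 3 * m) ^ m := by
    apply one_le_pow₀
    have : (0 : ℝ) ≤ m := Nat.cast_nonneg _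
    linarith
  linarith

theorem fac_le (w f x y z : ℝ) (hw : 0 < w) (hf0 : 0 ≤ f) (hx : 0 ≤ x) (hy : 0 ≤ y)
    (hw1 : 1 / w ≤ Real.exp (Real.exp x)) (hf : f ≤ Real.exp y) (hz : x + y + 1 ≤ z) :
    f / w ≤ Real.exp (Real.exp z) := by
  have h1 : f / w = f * (1 / w) := by rw [mul_one_div]
  rw [h1]
  refine (mul_le_mul hf hw1 (by positivity) (Real.exp_pos _).le).trans ?_
  rw [← Real.exp_add]
  apply Real.exp_le_exp.mpr
  refine (add_le_add (le_exp_self _) le_rfl).trans ?_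
  refine (exp_add_le _ _ hy hx).trans ?_
  apply Real.exp_le_exp.mpr
  linarith

theorem k0_le (n c : ℝ) (hn2 : 2 ≤ n) (hc : 1 ≤ c) :
    n * (2 * (c + 1) * (n + 2) + 2) + (1 + n * (c + 1) + n) ≤
      c * (n * (4 * (n + 2) + 2) + (1 + 2 * n + n)) := by
  have h1 : 0 ≤ n * (n + 2) * (c - 1) := by
    apply mul_nonneg (by positivity) (by linarith)
  have h2 : 0 ≤ n * (c - 1) := mul_nonneg (by linarith) (by linarith)
  nlinarith

/-- the choice of the parameters -/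
theorem params (n' : ℕ) (n : ℝ) (hn : n = ((n' + 1 : ℕ) : ℝ)) (hn2 : 2 ≤ n) (C Ka Q : ℝ)
    (hC : 1 ≤ C) (hKa : 1 ≤ Ka) (hQ : 0 ≤ Q) :
    ∃ K : ℝ, 1 ≤ K ∧ ∀ c γ : ℝ, 1 ≤ c → 0 < γ → γ ≤ 1 → ∃ (τ : ℝ) (m : ℕ),
      0 < τ ∧ τ ≤ 1 / 2 ∧
      τ * (n * (2 * (c + 1) * (n + 2) + 2) + (1 + n * (c + 1) + n)) ≤ γ / (4 * n) ∧
      Ka / τ ^ 2 ≤ m ∧ 0 < m ∧
      Q * (4 * n) / γ ≤ Real.exp (Real.exp (K * (c / γ) ^ 2)) ∧
      2 * c / om m τ ≤ Real.exp (Real.exp (K * (c / γ) ^ 2)) ∧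
      Real.log C * m * (2 * c) / om m τ ≤ Real.exp (Real.exp (K * (c / γ) ^ 2)) ∧
      2 / om m τ ≤ Real.exp (Real.exp (K * (c / γ) ^ 2)) ∧
      (((⌈2 * c / τ⌉₊ : ℝ) + 1) * ((⌈2 * c / τ⌉₊ : ℝ) + 1)) ^ (n' + 1) * m ≤
        Real.exp (K * (c / γ) ^ 2) := by
  set k0 : ℝ := n * (4 * (n + 2) + 2) + (1 + 2 * n + n) with hk0
  have hk01 : 1 ≤ k0 := by
    rw [hk0]; nlinarith
  set k1 : ℝ := 4 * n * k0 with hk1
  have hk18 : 8 ≤ k1 := by
    rw [hk1]; nlinarith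
  have hC0 : 0 < C := by linarith
  obtain ⟨a1, ha1⟩ : ∃ a1, a1 = 2 * Ka * k1 ^ 2 := ⟨_, rfl⟩
  have ha10 : 0 < a1 := by rw [ha1]; positivity
  obtain ⟨K1, hK1⟩ : ∃ K1, K1 = 4 * a1 + 64 * k1 + 5 := ⟨_, rfl⟩
  obtain ⟨K2, hK2⟩ : ∃ K2, K2 = C + a1 + 3 + 4 * n * Q := ⟨_, rfl⟩
  obtain ⟨K3, hK3⟩ : ∃ K3, K3 = a1 + 8 * k1 * n := ⟨_, rfl⟩
  obtain ⟨q4, hq4⟩ : ∃ q4, q4 = 4 * n * Q := ⟨_, rfl⟩
  have hq40 : 0 ≤ q4 := by rw [hq4]; positivity
  rw [← hq4] at hK2
  have hK10 : 0 ≤ K1 := by rw [hK1]; positivity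
  have hK20 : 0 ≤ K2 := by rw [hK2]; linarith
  have hK30 : 0 ≤ K3 := by rw [hK3]; positivity
  refine ⟨K1 + K2 + K3 + 1, by linarith, ?_⟩
  intro c γ hc hγ hγ1
  have hc0 : 0 < c := by linarith
  obtain ⟨M, hM⟩ : ∃ M, M = c / γ := ⟨_, rfl⟩
  have hMc : c ≤ M := by
    rw [hM, le_div_iff₀ hγ]; nlinarith
  have hM1 : 1 ≤ M := by linarith
  have hM0 : 0 < M := by linarith
  have hMM : M ≤ M ^ 2 := by nlinarith
  have hM21 : 1 ≤ M ^ 2 := by nlinarith
  have hMγ : 1 / γ ≤ M := by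
    rw [hM]; exact div_le_div_of_nonneg_right hc hγ.le
  rw [← hM]
  obtain ⟨S, hS⟩ : ∃ S, S = M ^ 2 := ⟨_, rfl⟩
  obtain ⟨τ, hτ⟩ : ∃ τ, τ = 1 / (k1 * M) := ⟨_, rfl⟩
  have hk1M : 8 ≤ k1 * M := by nlinarith
  have hτ0 : 0 < τ := by rw [hτ]; positivity
  have hτ12 : τ ≤ 1 / 2 := by
    rw [hτ]
    apply one_div_le_one_div_of_le (by norm_num)
    linarith
  obtain ⟨m, hm⟩ : ∃ m, m = ⌈Ka / τ ^ 2⌉₊ := ⟨_, rfl⟩
  have hKaτ : Ka / τ ^ 2 = Ka * k1 ^ 2 * M ^ 2 := by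
    rw [hτ]; field_simp
  have hKaτ1 : 1 ≤ Ka / τ ^ 2 := by
    have h1 : 1 ≤ 1 / τ ^ 2 := by
      rw [le_div_iff₀ (by positivity)]
      nlinarith
    have h2 : Ka / τ ^ 2 = Ka * (1 / τ ^ 2) := by rw [mul_one_div]
    rw [h2]
    nlinarith
  have hm0 : 0 < m := by
    rw [hm, Nat.ceil_pos]; linarith
  have hmle : (m : ℝ) ≤ a1 * S := by
    have h1 : (m : ℝ) < Ka / τ ^ 2 + 1 := by rw [hm]; exact Nat.ceil_lt_add_one (by positivity)
    have h2 : a1 * S = 2 * (Ka / τ ^ 2) := by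
      rw [hKaτ, ha1, hS]; ring
    rw [h2]
    linarith
  have hmge : Ka / τ ^ 2 ≤ m := by rw [hm]; exact Nat.le_ceil _
  have hω := om_pos m τ hτ0
  have hS1 : 1 ≤ S := by rw [hS]; exact hM21
  have hMS : M ≤ S := by rw [hS]; exact hMM
  rw [← hS]
  have hinv : 1 / om m τ ≤ Real.exp (Real.exp (K1 * S)) := by
    refine (inv_om_le m τ hτ0 (64 * (k1 * M)) ?_).trans ?_
    · rw [hτ]; field_simp; exact le_refl _
    · apply Real.exp_le_exp.mpr
      apply Real.exp_le_exp.mpr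
      have h1 : k1 * M ≤ k1 * S := mul_le_mul_of_nonneg_left hMS (by linarith)
      rw [hK1]
      nlinarith
  have hzz : K1 * S + K2 * S + 1 ≤ (K1 + K2 + K3 + 1) * S := by
    have : 0 ≤ K3 * S := by positivity
    nlinarith
  have hfac : ∀ f : ℝ, 0 ≤ f → f ≤ Real.exp (K2 * S) →
      f / om m τ ≤ Real.exp (Real.exp ((K1 + K2 + K3 + 1) * S)) := fun f h0 h1 =>
    fac_le (om m τ) f (K1 * S) (K2 * S) _ hω h0 (by positivity) (by positivity) hinv h1 hzz
  have hω1 : om m τ ≤ 1 := om_le_one m τ hτ0 (by linarith)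
  have hfac' : ∀ f : ℝ, 0 ≤ f → f ≤ Real.exp (K2 * S) →
      f ≤ Real.exp (Real.exp ((K1 + K2 + K3 + 1) * S)) := by
    intro f hf0 hf
    refine le_trans ?_ (hfac f hf0 hf)
    rw [le_div_iff₀ hω]
    nlinarith
  have hK2S : ∀ y : ℝ, y ≤ K2 → y * S ≤ K2 * S := fun y hy =>
    mul_le_mul_of_nonneg_right hy (by linarith)
  refine ⟨τ, m, hτ0, hτ12, ?_, hmge, hm0, ?_, ?_, ?_, ?_, ?_⟩
  · have h2 : γ / (4 * n) = τ * (c * k0) := by
      rw [hτ, hM, hk1]
      field_simp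
    rw [h2]
    exact mul_le_mul_of_nonneg_left (k0_le n c hn2 hc) hτ0.le
  · apply hfac'
    · positivity
    · have h1 : Q * (4 * n) / γ = q4 * (1 / γ) := by rw [hq4]; ring
      rw [h1]
      have h2 : q4 * (1 / γ) ≤ q4 * S :=
        mul_le_mul_of_nonneg_left (hMγ.trans hMS) hq40
      refine (h2.trans ?_).trans (le_exp_self _)
      apply hK2S
      rw [hK2]; linarith
  · apply hfac
    · positivity
    · refine le_trans ?_ (le_exp_self _)
      refine le_trans ?_ (hK2S 2 (by rw [hK2]; linarith))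
      linarith
  · apply hfac
    · have := Real.log_nonneg hC
      positivity
    · have h1 : Real.log C ≤ Real.exp C := by
        refine le_trans ?_ (le_exp_self C)
        exact (Real.log_le_sub_one_of_pos hC0).trans (by linarith)
      have h2 : (m : ℝ) ≤ Real.exp (a1 * S) := hmle.trans (le_exp_self _)
      have h3 : 2 * c ≤ Real.exp (2 * S) := by
        refine le_trans ?_ (le_exp_self _)
        linarith
      have h4 : Real.log C * m * (2 * c) ≤ Real.exp C * Real.exp (a1 * S) * Real.exp (2 * S) := by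
        apply mul_le_mul _ h3 (by positivity) (by positivity)
        exact mul_le_mul h1 h2 (Nat.cast_nonneg _) (Real.exp_pos _).le
      refine h4.trans ?_
      rw [← Real.exp_add, ← Real.exp_add]
      apply Real.exp_le_exp.mpr
      have h5 : C ≤ C * S := le_mul_of_one_le_right hC0.le hS1
      refine le_trans ?_ (hK2S (C + a1 + 2) (by rw [hK2]; linarith))
      linarith
  · apply hfac
    · norm_num
    · refine le_trans ?_ (le_exp_self _)
      refine le_trans ?_ (hK2S 2 (by rw [hK2]; linarith))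
      linarith
  · obtain ⟨D, hD⟩ : ∃ D, D = ⌈2 * c / τ⌉₊ := ⟨_, rfl⟩
    rw [← hD]
    have hDle : (D : ℝ) + 1 ≤ Real.exp (4 * k1 * S) := by
      have h1 : (D : ℝ) < 2 * c / τ + 1 := by rw [hD]; exact Nat.ceil_lt_add_one (by positivity)
      have h2 : 2 * c / τ = 2 * (k1 * (c * M)) := by rw [hτ]; field_simp
      rw [h2] at h1
      have h3 : c * M ≤ S := by
        rw [hS, sq]; exact mul_le_mul_of_nonneg_right hMc hM0.le
      have h4 : k1 * (c * M) ≤ k1 * S := mul_le_mul_of_nonneg_left h3 (by linarith)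
      have h5 : 8 ≤ k1 * S := by nlinarith
      refine le_trans ?_ (le_exp_self _)
      linarith
    have h3 : (((D : ℝ) + 1) * (D + 1)) ^ (n' + 1) ≤ Real.exp (8 * k1 * n * S) := by
      have h4 : Real.exp (8 * k1 * n * S) =
          (Real.exp (4 * k1 * S) * Real.exp (4 * k1 * S)) ^ (n' + 1) := by
        rw [← Real.exp_add, ← Real.exp_nat_mul]
        congr 1
        rw [hn]; ring
      rw [h4]
      apply pow_le_pow_left₀ (by positivity)
      exact mul_le_mul hDle hDle (by positivity) (Real.exp_pos _).le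
    have h5 : (m : ℝ) ≤ Real.exp (a1 * S) := hmle.trans (le_exp_self _)
    refine (mul_le_mul h3 h5 (Nat.cast_nonneg _) (Real.exp_pos _).le).trans ?_
    rw [← Real.exp_add]
    apply Real.exp_le_exp.mpr
    have h6 : K3 * S = 8 * k1 * n * S + a1 * S := by rw [hK3]; ring
    have h7 : 0 ≤ K1 * S := by positivity
    have h8 : 0 ≤ K2 * S := by positivity
    nlinarith

theorem core_fin (n' : ℕ) (hn : 1 ≤ n') (Y j1 j2 : Fin (n' + 1)) (hj1 : j1 ≠ Y) (hj12 : j1 ≠ j2)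
    (ξ : ℝ) (hξ : IsIntegral ℤ ξ) :
    ∃ K : ℝ, 1 ≤ K ∧ ∀ b : ℕ, 2 ≤ b → ∀ c γ : ℝ, 1 ≤ c → 0 < γ → γ ≤ 1 →
      ∀ T : ℕ, Real.exp (K * (c / γ) ^ 2) ≤ T → ∀ N : Fin T → ℝ,
      (∀ t, Real.exp (Real.exp (K * (c / γ) ^ 2)) ≤ N t) →
      (∀ t t', t < t' → Real.exp (Real.exp (K * (c / γ) ^ 2)) * N t ≤ N t') →
      ∀ e : Fin T → Fin (n' + 1) → ℕ, (∀ t, e t Y = 0) →
      (∀ t l, (e t l : ℝ) * Real.log b ≤ c * N t) →
      ∀ (x : Fin T → Fin (n' + 1) → ℤ) (A : Fin T → Fin (n' + 1) → ℝ), (∀ t l, 0 < A t l) →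
      (∀ t l, |-Real.log (A t l)| ≤ c * N t) → (∀ t, γ * N t ≤ ∑ l, -Real.log (A t l)) →
      ∀ w : Fin T → Fin n' → Fin (n' + 1) → ℤ, (∀ t, LinearIndependent ℤ (w t)) →
      (∀ t i, ∑ l, x t l * w t i l = 0) →
      (∀ t i l, |(w t i l : ℝ) - (if l = Y then 0 else ξ * (b : ℝ) ^ (e t l) * w t i Y)|
        ≤ A t l) →
      (∀ t, x t j1 ≠ 0) → ∀ p q : Fin T → ℤ, (∀ t, IsCoprime (p t) (q t)) →
      (∀ t, x t j1 * (b : ℤ) ^ (e t j1) * p t = -(x t j2 * (b : ℤ) ^ (e t j2) * q t)) →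
      (∀ t, q t ≠ 0) →
      (∀ t, N t / c ≤ Real.log (max |(p t : ℝ)| |(q t : ℝ)|)) → False := by
  classical
  obtain ⟨C, hC, Ka, hKa, haux⟩ := aux_poly' (n' + 1) (by omega) Y ξ hξ
  set n : ℝ := ((n' + 1 : ℕ) : ℝ) with hn_def
  have hn2 : (2 : ℝ) ≤ n := by
    rw [hn_def]; exact_mod_cast (by omega : 2 ≤ n' + 1)
  set X : ℝ := max 1 |ξ| with hX
  have hX1 : 1 ≤ X := le_max_left _ _
  have hXξ : |ξ| ≤ X := le_max_right _ _
  set Q : ℝ := Real.log (2 ^ (2 * (n' + 1)) * C * (2 * X) * 2 * n) with hQ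
  have hQ0 : 0 ≤ Q := by
    rw [hQ]
    apply Real.log_nonneg
    have h1 : (1 : ℝ) ≤ 2 ^ (2 * (n' + 1)) := one_le_pow₀ (by norm_num)
    have h2 : (1 : ℝ) ≤ 2 ^ (2 * (n' + 1)) * C := by nlinarith
    have h3 : (1 : ℝ) ≤ 2 ^ (2 * (n' + 1)) * C * (2 * X) := by nlinarith
    have h4 : (1 : ℝ) ≤ 2 ^ (2 * (n' + 1)) * C * (2 * X) * 2 := by linarith
    nlinarith
  obtain ⟨K, hK1, hpar⟩ := params n' n hn_def hn2 C Ka Q hC hKa hQ0
  refine ⟨K, hK1, ?_⟩
  intro b hb c γ hc hγ hγ1 T hT N hN1 hN2 e heY he x A hApos hA hprod w hw horth hbd hx1 p q hpq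
    hrat hq0 hht
  have hc0 : 0 < c := by linarith
  obtain ⟨τ, m, hτ0, hτ12, hτγ, hmge, hm0, hP1, hP2, hP3, hP4, hP5⟩ := hpar c γ hc hγ hγ1
  set D : ℕ := ⌈2 * c / τ⌉₊ with hD
  -- the boxes
  let box : Fin T → Fin (n' + 1) → ℕ × ℕ := fun t l =>
    (⌈(-Real.log (A t l) / N t + c) / τ⌉₊, ⌊(e t l : ℝ) * Real.log b / N t / τ⌋₊)
  have hNpos : ∀ t, 0 < N t := fun t => lt_of_lt_of_le (Real.exp_pos _) (hN1 t)
  have hbR : (2 : ℝ) ≤ b := by exact_mod_cast hb
  have hlogb : 0 < Real.log b := Real.log_pos (by linarith)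
  have hAN : ∀ t l, -c ≤ -Real.log (A t l) / N t ∧ -Real.log (A t l) / N t ≤ c := by
    intro t l
    have h1 := abs_le.mp (hA t l)
    constructor
    · rw [le_div_iff₀ (hNpos t)]; linarith [h1.1]
    · rw [div_le_iff₀ (hNpos t)]; linarith [h1.2]
  have heN : ∀ t l, 0 ≤ (e t l : ℝ) * Real.log b / N t ∧ (e t l : ℝ) * Real.log b / N t ≤ c := by
    intro t l
    constructor
    · have := hNpos t; positivity
    · rw [div_le_iff₀ (hNpos t)]; exact he t l
  set BB : Finset (Fin (n' + 1) → ℕ × ℕ) :=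
    Fintype.piFinset (fun _ => Finset.range (D + 1) ×ˢ Finset.range (D + 1)) with hBB
  have hmaps : ∀ t ∈ (Finset.univ : Finset (Fin T)), box t ∈ BB := by
    intro t _
    rw [hBB, Fintype.mem_piFinset]
    intro l
    rw [Finset.mem_product, Finset.mem_range, Finset.mem_range]
    constructor
    · apply Nat.lt_succ_of_le
      apply Nat.ceil_le_ceil
      apply div_le_div_of_nonneg_right _ hτ0.le
      linarith [(hAN t l).2]
    · apply Nat.lt_succ_of_le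
      refine (Nat.floor_le_ceil _).trans ?_
      apply Nat.ceil_le_ceil
      apply div_le_div_of_nonneg_right _ hτ0.le
      linarith [(heN t l).2]
  have hBBne : BB.Nonempty := by
    refine ⟨fun _ => (0, 0), ?_⟩
    rw [hBB, Fintype.mem_piFinset]
    intro l
    simp
  have hcard : BB.card * m ≤ (Finset.univ : Finset (Fin T)).card := by
    rw [Finset.card_univ, Fintype.card_fin]
    have h1 : BB.card = ((D + 1) * (D + 1)) ^ (n' + 1) := by
      rw [hBB, Fintype.card_piFinset]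
      simp
    have h2 : ((BB.card * m : ℕ) : ℝ) ≤ T := by
      refine le_trans ?_ hT
      rw [h1]
      push_cast
      exact hP5
    exact_mod_cast h2
  obtain ⟨y, _, hy⟩ := Finset.exists_le_card_fiber_of_mul_le_card_of_maps_to hmaps hBBne hcard
  set S : Finset (Fin T) := Finset.univ.filter (fun t => box t = y) with hS
  obtain ⟨S', hS'S, hS'c⟩ := Finset.exists_subset_card_eq hy
  set tt : Fin m → Fin T := fun h => S'.orderEmbOfFin hS'c h with htt
  have htty : ∀ h, box (tt h) = y := by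
    intro h
    have h1 : tt h ∈ S' := Finset.orderEmbOfFin_mem _ _ _
    exact (Finset.mem_filter.mp (hS'S h1)).2
  have httlt : ∀ i j : Fin m, i < j → tt i < tt j := by
    intro i j hij
    exact (S'.orderEmbOfFin hS'c).strictMono hij
  have hY1 : ∀ h l, ⌈(-Real.log (A (tt h) l) / N (tt h) + c) / τ⌉₊ = (y l).1 := by
    intro h l
    have := congrFun (htty h) l
    exact congrArg Prod.fst this
  have hY2 : ∀ h l, ⌊(e (tt h) l : ℝ) * Real.log b / N (tt h) / τ⌋₊ = (y l).2 := by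
    intro h l
    have := congrFun (htty h) l
    exact congrArg Prod.snd this
  -- the common values
  set α : Fin (n' + 1) → ℝ := fun l => (y l).1 * τ - c with hα
  set ε : Fin (n' + 1) → ℝ := fun l => (y l).2 * τ with hε
  have hα1 : ∀ h l, -Real.log (A (tt h) l) / N (tt h) ≤ α l ∧
      α l ≤ -Real.log (A (tt h) l) / N (tt h) + τ := by
    intro h l
    have h0 : 0 ≤ (-Real.log (A (tt h) l) / N (tt h) + c) / τ := by
      apply div_nonneg _ hτ0.le
      linarith [(hAN (tt h) l).1]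
    have h1 := Nat.le_ceil ((-Real.log (A (tt h) l) / N (tt h) + c) / τ)
    have h2 := Nat.ceil_lt_add_one h0
    rw [hY1 h l] at h1 h2
    rw [div_le_iff₀ hτ0] at h1
    rw [← sub_lt_iff_lt_add, lt_div_iff₀ hτ0] at h2
    constructor
    · show _ ≤ ((y l).1 : ℝ) * τ - c
      linarith
    · show ((y l).1 : ℝ) * τ - c ≤ _
      nlinarith
  have hε1 : ∀ h l, ε l ≤ (e (tt h) l : ℝ) * Real.log b / N (tt h) ∧
      (e (tt h) l : ℝ) * Real.log b / N (tt h) ≤ ε l + τ := by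
    intro h l
    have h0 : 0 ≤ (e (tt h) l : ℝ) * Real.log b / N (tt h) / τ :=
      div_nonneg (heN (tt h) l).1 hτ0.le
    have h1 := Nat.floor_le h0
    have h2 := Nat.lt_floor_add_one ((e (tt h) l : ℝ) * Real.log b / N (tt h) / τ)
    rw [hY2 h l] at h1 h2
    rw [le_div_iff₀ hτ0] at h1
    rw [div_lt_iff₀ hτ0] at h2
    constructor
    · exact h1
    · show _ ≤ ((y l).2 : ℝ) * τ + τ
      nlinarith
  have hτ1 : τ ≤ 1 := by linarith
  refine core_m n' hn b hb ξ Y j1 j2 hj1 hj12 C hC m hm0 τ hτ0 hτ12 (fun r hr => haux τ hτ0 m hmge r hr)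
    c (c + 1) γ hc (by linarith) hγ X hX1 hXξ hτγ (Real.exp (Real.exp (K * (c / γ) ^ 2)))
    (Real.one_le_exp (Real.exp_pos _).le) hP1 hP2 hP3
    (fun h => N (tt h)) (fun h => hN1 _) ?_ (fun h => e (tt h)) (fun h => heY _) α ε ?_ ?_ ?_
    (fun h => x (tt h)) (fun h => A (tt h)) (fun h l => hApos _ _) ?_ ?_ (fun h => w (tt h))
    (fun h => hw _) (fun h i => horth _ i) (fun h i l => hbd _ i l) (fun h => hx1 _)
    (fun h => p (tt h)) (fun h => q (tt h)) (fun h => hpq _) (fun h => hrat _) (fun h => hq0 _)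
    (fun h => hht _)
  · -- growth
    intro i j hij
    refine le_trans ?_ (hN2 _ _ (httlt i j hij))
    exact mul_le_mul_of_nonneg_right hP4 (hNpos _).le
  · intro l
    have h1 := hα1 ⟨0, hm0⟩ l
    have h2 := hAN (tt ⟨0, hm0⟩) l
    rw [abs_le]
    constructor <;> linarith
  · intro l
    have h1 := hε1 ⟨0, hm0⟩ l
    have h2 := heN (tt ⟨0, hm0⟩) l
    refine ⟨?_, by linarith⟩
    show 0 ≤ ((y l).2 : ℝ) * τ
    positivity
  · have h1 := hprod (tt ⟨0, hm0⟩)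
    have h2 : ∑ l, -Real.log (A (tt ⟨0, hm0⟩) l) / N (tt ⟨0, hm0⟩) ≤ ∑ l, α l :=
      Finset.sum_le_sum (fun l _ => (hα1 ⟨0, hm0⟩ l).1)
    refine le_trans ?_ h2
    rw [← Finset.sum_div, le_div_iff₀ (hNpos _)]
    exact h1
  · intro h l
    have h1 := hα1 h l
    have h2 := hNpos (tt h)
    have h3 : -Real.log (A (tt h) l) - α l * N (tt h) =
        (-Real.log (A (tt h) l) / N (tt h) - α l) * N (tt h) := by
      field_simp
    show |-Real.log (A (tt h) l) - α l * N (tt h)| ≤ τ * N (tt h)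
    rw [h3, abs_mul, abs_of_pos h2]
    apply mul_le_mul_of_nonneg_right _ h2.le
    rw [abs_le]
    constructor <;> linarith
  · intro h l
    have h1 := hε1 h l
    have h2 := hNpos (tt h)
    have h3 : (e (tt h) l : ℝ) * Real.log b - ε l * N (tt h) =
        ((e (tt h) l : ℝ) * Real.log b / N (tt h) - ε l) * N (tt h) := by
      field_simp
    show |(e (tt h) l : ℝ) * Real.log b - ε l * N (tt h)| ≤ τ * N (tt h)
    rw [h3, abs_mul, abs_of_pos h2]
    apply mul_le_mul_of_nonneg_right _ h2.le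
    rw [abs_le]
    constructor <;> linarith

end Pool.Agent.H723.QS
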