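import Mathlib
import Pool.Graph.R_seed8.H648R2.S.Thm
import Pool.Agent.H723.QS.QCore

/-! The induction step of the separated subspace theorem, at single scales. -/

set_option autoImplicit false

open Finset

namespace Pool.Agent.H723.QS

open Pool.Agent.H393R2

/-- admissible exponents -/
def AdmQ (s : ℕ) (κ ρ : ℝ) (L : ℕ) (e : Fin s → ℕ) : Prop :=
  (∀ i, L ≤ e i) ∧ (∀ i, (e i : ℝ) ≤ ρ * L) ∧ (∀ i j, i ≠ j → κ * L ≤ |(e i : ℝ) - e j|)

lemma AdmQ.comp {s s' : ℕ} {κ ρ : ℝ} {L : ℕ} {e : Fin s → ℕ} (h : AdmQ s κ ρ L e)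
    (f : Fin s' → Fin s) (hf : Function.Injective f) : AdmQ s' κ ρ L (fun i => e (f i)) :=
  ⟨fun i => h.1 _, fun i => h.2.1 _, fun i j hij => h.2.2 _ _ (fun hh => hij (hf hh))⟩

/-- good approximations by small combinations of separated powers, at the scale `L` -/
def BadQ (b : ℕ) (ξ : ℝ) (s : ℕ) (η ε κ ρ : ℝ) (L : ℕ) : Prop :=
  ∃ e : Fin s → ℕ, AdmQ s κ ρ L e ∧
    ∃ lam : Fin s → ℤ, lam ≠ 0 ∧ (∀ j, |(lam j : ℝ)| ≤ Real.exp (ε * (L * Real.log b))) ∧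
      ∃ P : ℤ, |ξ * ∑ j, (lam j : ℝ) * (b : ℝ) ^ (e j) - P| ≤
        Real.exp (-(η * (L * Real.log b)))

theorem not_badQ_zero (b : ℕ) (ξ η ε κ ρ : ℝ) (L : ℕ) : ¬ BadQ b ξ 0 η ε κ ρ L := by
  rintro ⟨_, _, lam, hlam, _⟩
  apply hlam
  funext i
  exact Fin.elim0 i

theorem gapQ {b : ℕ} (hb : 2 ≤ b) {ξ : ℝ} {s : ℕ} (κ ρ δ1 ε' : ℝ)
    (hδ1 : 0 < δ1) (hε' : 0 < ε') (L : ℕ) (hL2 : 2 / ε' ≤ L) (hL3 : 4 / δ1 ≤ L)
    (hnb : ¬ BadQ b ξ s (δ1 / 4) ε' κ ρ L) (e : Fin (s + 1) → ℕ) (he : AdmQ (s + 1) κ ρ L e)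
    (lam lam' : Fin (s + 1) → ℤ) (P P' : ℤ) (hlam : lam ≠ 0)
    (hle : ∀ i, |(lam i : ℝ)| ≤ Real.exp (min (ε' / 4) (δ1 / 4) * (L * Real.log b)))
    (hle' : ∀ i, |(lam' i : ℝ)| ≤ Real.exp (min (ε' / 4) (δ1 / 4) * (L * Real.log b)))
    (hf : |ξ * ∑ i, (lam i : ℝ) * (b : ℝ) ^ (e i) - P| ≤ Real.exp (-(δ1 * (L * Real.log b))))
    (hf' : |ξ * ∑ i, (lam' i : ℝ) * (b : ℝ) ^ (e i) - P'| ≤
        Real.exp (-(δ1 * (L * Real.log b))))
    (hind : ∀ u v : ℤ, (∀ i, u * lam i - v * lam' i = 0) → u * P - v * P' = 0 → v = 0) :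
    False := by
  set δ' : ℝ := δ1 / 4 with hδ'
  have hδ'0 : 0 < δ' := by positivity
  set ε : ℝ := min (ε' / 4) (δ1 / 4) with hεdef
  have hε : 0 < ε := by rw [hεdef]; apply lt_min <;> positivity
  set N : ℝ := (L : ℝ) * Real.log b with hN
  have hN0 : 0 ≤ N := by
    have := Real.log_natCast_nonneg b
    positivity
  have he1 : 2 ≤ Real.exp (ε' / 2 * N) := by
    apply two_le_exp hb
    rw [div_le_iff₀ hε'] at hL2
    linarith
  have he2 : 2 ≤ Real.exp (δ1 / 4 * N) := by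
    apply two_le_exp hb
    rw [div_le_iff₀ hδ1] at hL3
    linarith
  -- choose j
  obtain ⟨j, hj⟩ : ∃ j, lam j ≠ 0 := by
    by_contra hcon
    push Not at hcon
    exact hlam (funext hcon)
  have hθ : ∀ (lam : Fin (s + 1) → ℤ), ∑ i, (lam i : ℝ) * (b : ℝ) ^ (e i) =
    ∑ i, (lam i : ℝ) * (fun i => (b : ℝ) ^ (e i)) i := fun _ => rfl
  set y : Fin (s + 1) → ℤ := fun i => lam' j * lam i - lam j * lam' i with hy
  set Py : ℤ := lam' j * P - lam j * P' with hPy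
  have hyj : y j = 0 := by rw [hy]; ring
  have hform : ξ * ∑ i, (y i : ℝ) * (b : ℝ) ^ (e i) - Py =
      lam' j * (ξ * ∑ i, (lam i : ℝ) * (b : ℝ) ^ (e i) - P) -
      lam j * (ξ * ∑ i, (lam' i : ℝ) * (b : ℝ) ^ (e i) - P') :=
    form_comb ξ (fun i => (b : ℝ) ^ (e i)) lam lam' P P' (lam' j) (lam j)
  have hformle : |ξ * ∑ i, (y i : ℝ) * (b : ℝ) ^ (e i) - Py| ≤
      2 * Real.exp (ε * N - δ1 * N) := by
    rw [hform]
    refine le_trans (abs_sub _ _) ?_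
    rw [abs_mul, abs_mul]
    have h1 : |(lam' j : ℝ)| * |ξ * ∑ i, (lam i : ℝ) * (b : ℝ) ^ (e i) - P| ≤
        Real.exp (ε * N) * Real.exp (-(δ1 * N)) :=
      mul_le_mul (hle' j) hf (abs_nonneg _) (Real.exp_pos _).le
    have h2 : |(lam j : ℝ)| * |ξ * ∑ i, (lam' i : ℝ) * (b : ℝ) ^ (e i) - P'| ≤
        Real.exp (ε * N) * Real.exp (-(δ1 * N)) :=
      mul_le_mul (hle j) hf' (abs_nonneg _) (Real.exp_pos _).le
    rw [← Real.exp_add] at h1 h2
    have h3 : ε * N + -(δ1 * N) = ε * N - δ1 * N := by ring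
    rw [h3] at h1 h2
    linarith
  have hyle : ∀ i, |(y i : ℝ)| ≤ 2 * Real.exp (2 * ε * N) := by
    intro i
    rw [hy]
    push_cast
    refine le_trans (abs_sub _ _) ?_
    rw [abs_mul, abs_mul]
    have h1 : |(lam' j : ℝ)| * |(lam i : ℝ)| ≤ Real.exp (ε * N) * Real.exp (ε * N) :=
      mul_le_mul (hle' j) (hle i) (abs_nonneg _) (Real.exp_pos _).le
    have h2 : |(lam j : ℝ)| * |(lam' i : ℝ)| ≤ Real.exp (ε * N) * Real.exp (ε * N) :=
      mul_le_mul (hle j) (hle' i) (abs_nonneg _) (Real.exp_pos _).le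
    rw [← Real.exp_add] at h1 h2
    have h3 : ε * N + ε * N = 2 * ε * N := by ring
    rw [h3] at h1 h2
    linarith
  have hεδ : ε ≤ δ1 / 4 := min_le_right _ _
  have hεε : ε ≤ ε' / 4 := min_le_left _ _
  have hδ'δ1 : δ' ≤ δ1 / 4 := le_refl _
  have hsmall : 2 * Real.exp (ε * N - δ1 * N) ≤ Real.exp (-(δ' * N)) := by
    calc 2 * Real.exp (ε * N - δ1 * N) ≤ Real.exp (δ1 / 4 * N) * Real.exp (ε * N - δ1 * N) :=
          mul_le_mul_of_nonneg_right he2 (Real.exp_pos _).le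
      _ = Real.exp (δ1 / 4 * N + (ε * N - δ1 * N)) := by rw [Real.exp_add]
      _ ≤ Real.exp (-(δ' * N)) := by
          apply Real.exp_le_exp.mpr
          nlinarith
  by_cases hy0 : (fun i => y (j.succAbove i)) = 0
  · -- then the integer Py is small
    have hyall : ∀ i, y i = 0 := by
      intro i
      rcases Fin.eq_self_or_eq_succAbove j i with h1 | ⟨k, h1⟩
      · rw [h1]; exact hyj
      · rw [h1]; exact congrFun hy0 k
    have hPy0 : Py = 0 := by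
      by_contra hne
      have h1 : (1 : ℝ) ≤ |(Py : ℝ)| := by
        exact_mod_cast Int.one_le_abs hne
      have h2 : |(Py : ℝ)| ≤ 2 * Real.exp (ε * N - δ1 * N) := by
        have h3 : ξ * ∑ i, (y i : ℝ) * (b : ℝ) ^ (e i) - Py = -(Py : ℝ) := by
          simp [hyall]
        rw [h3, abs_neg] at hformle
        exact hformle
      have h4 : 2 * Real.exp (ε * N - δ1 * N) < 1 := by
        have h5 : Real.exp (ε * N - δ1 * N) * (Real.exp (δ1 / 4 * N) * Real.exp (δ1 / 4 * N)) ≤ 1 := by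
          rw [← Real.exp_add, ← Real.exp_add]
          rw [Real.exp_le_one_iff]
          nlinarith
        have h6 := Real.exp_pos (ε * N - δ1 * N)
        nlinarith
      linarith
    have := hind (lam' j) (lam j) hyall hPy0
    exact hj this
  · apply hnb
    refine ⟨fun i => e (j.succAbove i), he.comp _ Fin.succAbove_right_injective,
      fun i => y (j.succAbove i), hy0, ?_, Py, ?_⟩
    · intro i
      refine le_trans (hyle _) ?_
      calc 2 * Real.exp (2 * ε * N) ≤ Real.exp (ε' / 2 * N) * Real.exp (2 * ε * N) :=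
            mul_le_mul_of_nonneg_right he1 (Real.exp_pos _).le
        _ = Real.exp (ε' / 2 * N + 2 * ε * N) := by rw [Real.exp_add]
        _ ≤ Real.exp (ε' * N) := by
            apply Real.exp_le_exp.mpr
            nlinarith
    · have h2 : ∑ i, (y i : ℝ) * (b : ℝ) ^ (e i) =
          ∑ i, (y (j.succAbove i) : ℝ) * (b : ℝ) ^ (e (j.succAbove i)) := by
        rw [Fin.sum_univ_succAbove _ j, hyj]
        simp
      rw [← h2]
      exact le_trans hformle hsmall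

/-- the height lemma, one coefficient -/
theorem heights_oneQ {ξ : ℝ} (hξ : IsAlgebraic ℚ ξ) (hirr : Irrational ξ) :
    ∃ c : ℝ, 1 ≤ c ∧ ∀ b : ℕ, 2 ≤ b → ∀ δ : ℝ, 0 < δ → ∀ L : ℕ, c ≤ L * Real.log b →
      ∀ e : Fin 1 → ℕ, (∀ i, L ≤ e i) →
      ∀ (lam : Fin 1 → ℤ) (P : ℤ), (∀ i, lam i ≠ 0) →
      |ξ * ∑ i, (lam i : ℝ) * (b : ℝ) ^ (e i) - P| ≤ Real.exp (-(δ * (L * Real.log b))) →
      ∀ p q : ℤ, q ≠ 0 →
        (Fin.cons (-P) lam : Fin 2 → ℤ) 1 * (b : ℤ) ^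
            ((Fin.cons 0 e : Fin 2 → ℕ) 1) * p =
          -((Fin.cons (-P) lam : Fin 2 → ℤ) 0 * (b : ℤ) ^
            ((Fin.cons 0 e : Fin 2 → ℕ) 0) * q) →
        (L * Real.log b) / c ≤ Real.log (max |(p : ℝ)| |(q : ℝ)|) := by
  obtain ⟨D, hD1, hD⟩ := liouville_log hξ hirr
  refine ⟨D, hD1, ?_⟩
  intro b hb δ hδ L hLD e he lam P hlam hf p q hq hpq
  have hbR : (2 : ℝ) ≤ b := by exact_mod_cast hb
  have hb0 : (0 : ℝ) < b := by linarith
  have hlogb : 0 < Real.log b := Real.log_pos (by linarith)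
  have h1 : (Fin.cons (-P) lam : Fin 2 → ℤ) 1 = lam 0 := rfl
  have h2 : (Fin.cons (-P) lam : Fin 2 → ℤ) 0 = -P := rfl
  have h3 : (Fin.cons 0 e : Fin 2 → ℕ) 1 = e 0 := rfl
  have h4 : (Fin.cons 0 e : Fin 2 → ℕ) 0 = 0 := rfl
  have hpq' : lam 0 * (b : ℤ) ^ (e 0) * p = P * q := by
    have := hpq
    rw [h1, h2, h3, h4] at this
    linarith
  have hpqR : (lam 0 : ℝ) * (b : ℝ) ^ (e 0) * p = P * q := by exact_mod_cast hpq'
  have hqR : (q : ℝ) ≠ 0 := by exact_mod_cast hq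
  have hPeq : (P : ℝ) = (lam 0 : ℝ) * (b : ℝ) ^ (e 0) * (p / q) := by
    field_simp
    linarith
  have hf' : |ξ - p / q| * (|(lam 0 : ℝ)| * (b : ℝ) ^ (e 0)) ≤
      Real.exp (-(δ * (L * Real.log b))) := by
    have h5 : ξ * ∑ i : Fin 1, (lam i : ℝ) * (b : ℝ) ^ (e i) - P =
        (ξ - p / q) * ((lam 0 : ℝ) * (b : ℝ) ^ (e 0)) := by
      rw [Fin.sum_univ_one, hPeq]; ring
    have h6 := hf
    rw [h5, abs_mul, abs_mul, abs_of_pos (by positivity : (0 : ℝ) < (b : ℝ) ^ (e 0))]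
      at h6
    exact h6
  have hlam1 : (1 : ℝ) ≤ |(lam 0 : ℝ)| := by
    exact_mod_cast Int.one_le_abs (hlam 0)
  have hbpow : Real.exp (L * Real.log b) ≤ (b : ℝ) ^ (e 0) := by
    have h7 : (b : ℝ) ^ (L : ℕ) = Real.exp (L * Real.log b) := by
      rw [← Real.rpow_natCast, Real.rpow_def_of_pos hb0, mul_comm]
    rw [← h7]
    exact pow_le_pow_right₀ (by linarith) (he 0)
  have hfin : |ξ - p / q| ≤ Real.exp (-(L * Real.log b)) := by
    have h8 : |ξ - p / q| * Real.exp (L * Real.log b) ≤ 1 := by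
      calc |ξ - p / q| * Real.exp (L * Real.log b)
          ≤ |ξ - p / q| * (|(lam 0 : ℝ)| * (b : ℝ) ^ (e 0)) := by
            apply mul_le_mul_of_nonneg_left _ (abs_nonneg _)
            calc Real.exp (L * Real.log b) = 1 * Real.exp (L * Real.log b) := (one_mul _).symm
              _ ≤ _ := mul_le_mul hlam1 hbpow (Real.exp_pos _).le (by positivity)
        _ ≤ Real.exp (-(δ * (L * Real.log b))) := hf'
        _ ≤ 1 := by
          rw [Real.exp_le_one_iff]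
          have : 0 ≤ δ * (L * Real.log b) := by positivity
          linarith
    rw [Real.exp_neg, ← one_div, le_div_iff₀ (Real.exp_pos _)]
    exact h8
  have h9 := hD p q (L * Real.log b) hLD hq hfin
  refine le_trans h9 ?_
  apply Real.log_le_log (abs_pos.mpr hqR)
  exact le_max_right _ _

/-- the height lemma, two coefficients -/
theorem heights_twoQ {b : ℕ} (hb : 2 ≤ b) {s : ℕ} (i1 i2 : Fin s) (hi : i1 ≠ i2)
    (δ : ℝ) (hδ : 0 < δ) (L : ℕ) (hL : 1 ≤ L) (e : Fin s → ℕ)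
    (he : ∀ i j, i ≠ j → δ * L ≤ |(e i : ℝ) - e j|)
    (lam : Fin s → ℤ) (hlam : ∀ i, lam i ≠ 0)
    (hle : ∀ i, |(lam i : ℝ)| ≤ Real.exp (δ / 2 * (L * Real.log b)))
    (p q : ℤ) (hq : q ≠ 0)
    (hpq : lam i1 * (b : ℤ) ^ (e i1) * p = -(lam i2 * (b : ℤ) ^ (e i2) * q)) :
    (L * Real.log b) / (max 1 (2 / δ)) ≤ Real.log (max |(p : ℝ)| |(q : ℝ)|) := by
  have hbR : (2 : ℝ) ≤ b := by exact_mod_cast hb
  have hb0 : (0 : ℝ) < b := by linarith
  have hlogb : 0 < Real.log b := Real.log_pos (by linarith)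
  set N : ℝ := (L : ℝ) * Real.log b with hN
  have hN0 : 0 ≤ N := by rw [hN]; positivity
  have hbZ : (b : ℤ) ≠ 0 := by
    have : b ≠ 0 := by omega
    exact_mod_cast this
  have hp : p ≠ 0 := by
    rintro rfl
    rw [mul_zero] at hpq
    have : lam i2 * (b : ℤ) ^ (e i2) * q = 0 := by linarith
    exact mul_ne_zero (mul_ne_zero (hlam i2) (pow_ne_zero _ hbZ)) hq this
  -- symmetric core
  have core : ∀ (i1 i2 : Fin s), e i1 < e i2 → i1 ≠ i2 → ∀ p q : ℤ, p ≠ 0 → q ≠ 0 →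
      |(lam i1 : ℝ)| * (b : ℝ) ^ (e i1) * |(p : ℝ)| =
        |(lam i2 : ℝ)| * (b : ℝ) ^ (e i2) * |(q : ℝ)| →
      Real.exp (δ / 2 * N) ≤ |(p : ℝ)| := by
    intro i1 i2 hlt hne p q hp hq habs
    have hq1 : (1 : ℝ) ≤ |(q : ℝ)| := by exact_mod_cast Int.one_le_abs hq
    have hlam2 : (1 : ℝ) ≤ |(lam i2 : ℝ)| := by exact_mod_cast Int.one_le_abs (hlam i2)
    have hexp : (b : ℝ) ^ (e i2) = (b : ℝ) ^ (e i1) * (b : ℝ) ^ (e i2 - e i1) := by
      rw [← pow_add]; congr 1; omega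
    have hbig : (b : ℝ) ^ (e i2 - e i1) ≤ |(lam i1 : ℝ)| * |(p : ℝ)| := by
      have hbp : (0 : ℝ) < (b : ℝ) ^ (e i1) := by positivity
      have h2 : (b : ℝ) ^ (e i1) * (|(lam i1 : ℝ)| * |(p : ℝ)|) =
          (b : ℝ) ^ (e i1) * (|(lam i2 : ℝ)| * (b : ℝ) ^ (e i2 - e i1) *
            |(q : ℝ)|) := by
        rw [hexp] at habs
        linarith
      have h3 := mul_left_cancel₀ hbp.ne' h2
      rw [h3]
      have hbb : (0 : ℝ) < (b : ℝ) ^ (e i2 - e i1) := by positivity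
      calc (b : ℝ) ^ (e i2 - e i1) = 1 * (b : ℝ) ^ (e i2 - e i1) * 1 := by ring
        _ ≤ |(lam i2 : ℝ)| * (b : ℝ) ^ (e i2 - e i1) * |(q : ℝ)| := by
          apply mul_le_mul _ hq1 (by norm_num) (by positivity)
          exact mul_le_mul_of_nonneg_right hlam2 hbb.le
    have hβ : Real.exp (δ * N) ≤ (b : ℝ) ^ (e i2 - e i1) := by
      have h4 : (b : ℝ) ^ (e i2 - e i1 : ℕ) = Real.exp ((e i2 - e i1 : ℕ) * Real.log b) := by
        rw [← Real.rpow_natCast, Real.rpow_def_of_pos hb0, mul_comm]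
      rw [h4]
      apply Real.exp_le_exp.mpr
      rw [hN, ← mul_assoc]
      apply mul_le_mul_of_nonneg_right _ hlogb.le
      have h5 := he i2 i1 (Ne.symm hne)
      rw [Nat.cast_sub hlt.le]
      rwa [abs_of_nonneg (by
        have : (e i1 : ℝ) ≤ e i2 := by exact_mod_cast hlt.le
        linarith)] at h5
    have h5 : Real.exp (δ * N) ≤ Real.exp (δ / 2 * N) * |(p : ℝ)| := by
      refine le_trans hβ (le_trans hbig ?_)
      exact mul_le_mul_of_nonneg_right (hle i1) (abs_nonneg _)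
    have h6 : Real.exp (δ * N) = Real.exp (δ / 2 * N) * Real.exp (δ / 2 * N) := by
      rw [← Real.exp_add]; congr 1; ring
    rw [h6] at h5
    exact le_of_mul_le_mul_left h5 (Real.exp_pos _)
  have hpqR : (lam i1 : ℝ) * (b : ℝ) ^ (e i1) * p =
      -((lam i2 : ℝ) * (b : ℝ) ^ (e i2) * q) := by exact_mod_cast hpq
  have habs : |(lam i1 : ℝ)| * (b : ℝ) ^ (e i1) * |(p : ℝ)| =
      |(lam i2 : ℝ)| * (b : ℝ) ^ (e i2) * |(q : ℝ)| := by
    have h1 := congrArg abs hpqR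
    rw [abs_neg, abs_mul, abs_mul, abs_mul, abs_mul,
      abs_of_pos (by positivity : (0 : ℝ) < (b : ℝ) ^ (e i1)),
      abs_of_pos (by positivity : (0 : ℝ) < (b : ℝ) ^ (e i2))] at h1
    exact h1
  have hmax : Real.exp (δ / 2 * N) ≤ max |(p : ℝ)| |(q : ℝ)| := by
    have hsep := he i1 i2 hi
    have hne : e i1 ≠ e i2 := by
      intro h
      rw [h, sub_self, abs_zero] at hsep
      have h1 : (1 : ℝ) ≤ L := by exact_mod_cast hL
      nlinarith
    rcases lt_or_gt_of_ne hne with h | h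
    · exact le_trans (core i1 i2 h hi p q hp hq habs) (le_max_left _ _)
    · exact le_trans (core i2 i1 h (Ne.symm hi) q p hq hp habs.symm) (le_max_right _ _)
  have h7 : N / max 1 (2 / δ) ≤ δ / 2 * N := by
    rw [div_le_iff₀ (by positivity)]
    have h8 : 2 / δ ≤ max 1 (2 / δ) := le_max_right _ _
    have h9 : δ / 2 * (2 / δ) = 1 := by field_simp
    calc N = δ / 2 * N * (2 / δ) := by linear_combination (-N) * h9
      _ ≤ δ / 2 * N * max 1 (2 / δ) := mul_le_mul_of_nonneg_left h8 (by positivity)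
  refine le_trans h7 ?_
  rw [Real.le_log_iff_exp_le (lt_of_lt_of_le (Real.exp_pos _) hmax)]
  exact hmax


end Pool.Agent.H723.QS
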