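import Mathlib
import Pool.Agent.H723.QS.QStep

/-! Counting the exceptional dyadic scales. -/

set_option autoImplicit false

open Finset

namespace Pool.Agent.H723.QS

/-- every element of `S` is at least twice every smaller element -/
def Sep2 (S : Finset ℕ) : Prop :=
  (∀ L ∈ S, 1 ≤ L) ∧ ∀ L ∈ S, ∀ L' ∈ S, L < L' → 2 * L ≤ L'

theorem Sep2.subset {S S' : Finset ℕ} (h : Sep2 S) (hS : S' ⊆ S) : Sep2 S' :=
  ⟨fun L hL => h.1 L (hS hL), fun L hL L' hL' => h.2 L (hS hL) L' (hS hL')⟩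

/-- `P` holds for at most `B` scales -/
def Thin (P : ℕ → Prop) (B : ℝ) : Prop :=
  ∀ S : Finset ℕ, Sep2 S → (∀ L ∈ S, P L) → (S.card : ℝ) ≤ B

theorem Thin.mono {P P' : ℕ → Prop} {B B' : ℝ} (h : Thin P B) (hP : ∀ L, 1 ≤ L → P' L → P L)
    (hB : B ≤ B') : Thin P' B' := fun S hS hSP =>
  (h S hS (fun L hL => hP L (hS.1 L hL) (hSP L hL))).trans hB

theorem Thin.or {P P' : ℕ → Prop} {B B' : ℝ} (h : Thin P B) (h' : Thin P' B') :
    Thin (fun L => P L ∨ P' L) (B + B') := by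
  classical
  intro S hS hSP
  have h1 := h (S.filter P) (hS.subset (Finset.filter_subset _ _))
    (fun L hL => (Finset.mem_filter.mp hL).2)
  have h2 := h' (S.filter P') (hS.subset (Finset.filter_subset _ _))
    (fun L hL => (Finset.mem_filter.mp hL).2)
  have h3 : S ⊆ S.filter P ∪ S.filter P' := by
    intro L hL
    rw [Finset.mem_union, Finset.mem_filter, Finset.mem_filter]
    rcases hSP L hL with h | h
    · exact Or.inl ⟨hL, h⟩
    · exact Or.inr ⟨hL, h⟩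
  have h4 := (Finset.card_le_card h3).trans (Finset.card_union_le _ _)
  have h5 : (S.card : ℝ) ≤ (S.filter P).card + (S.filter P').card := by exact_mod_cast h4
  linarith

theorem sep2_emb {S : Finset ℕ} (hS : Sep2 S) {k : ℕ} (hk : S.card = k) (i : ℕ) :
    ∀ g : ℕ, ∀ (h1 : i < k) (h2 : i + g < k),
      2 ^ g * S.orderEmbOfFin hk ⟨i, h1⟩ ≤ S.orderEmbOfFin hk ⟨i + g, h2⟩ := by
  intro g
  induction g with
  | zero => intro h1 h2; simp
  | succ g ih =>
    intro h1 h2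
    have h3 := ih h1 (by omega)
    have h4 := hS.2 (S.orderEmbOfFin hk ⟨i + g, by omega⟩) (Finset.orderEmbOfFin_mem _ _ _)
      (S.orderEmbOfFin hk ⟨i + (g + 1), h2⟩) (Finset.orderEmbOfFin_mem _ _ _)
      ((S.orderEmbOfFin hk).strictMono (by
        rw [Fin.mk_lt_mk]; omega))
    rw [pow_succ]
    calc 2 ^ g * 2 * S.orderEmbOfFin hk ⟨i, h1⟩ = 2 * (2 ^ g * S.orderEmbOfFin hk ⟨i, h1⟩) := by ring
      _ ≤ 2 * S.orderEmbOfFin hk ⟨i + g, by omega⟩ := Nat.mul_le_mul_left _ h3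
      _ ≤ _ := h4

/-- small scales -/
theorem thin_small (M : ℕ) : Thin (fun L => L < M) M := by
  intro S hS hSP
  have h1 : S ⊆ Finset.range M := fun L hL => Finset.mem_range.mpr (hSP L hL)
  have h2 := Finset.card_le_card h1
  rw [Finset.card_range] at h2
  exact_mod_cast h2

/-- no long fast sequence implies few scales -/
theorem thin_of_no_seq (P : ℕ → Prop) (E : ℝ) (hE : 1 ≤ E)
    (hno : ∀ T : ℕ, E ≤ T → ∀ L : Fin T → ℕ, (∀ t, Real.exp E ≤ L t) →
      (∀ t t', t < t' → Real.exp E * L t ≤ L t') → (∀ t, P (L t)) → False) :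
    Thin P (12 * E ^ 2) := by
  classical
  intro S hS hSP
  by_contra hcon
  push Not at hcon
  obtain ⟨g, hg⟩ : ∃ g : ℕ, g = ⌈2 * E⌉₊ := ⟨_, rfl⟩
  obtain ⟨T, hT⟩ : ∃ T : ℕ, T = ⌈E⌉₊ := ⟨_, rfl⟩
  have hgle : (g : ℝ) ≤ 3 * E := by
    have : (g : ℝ) < 2 * E + 1 := by rw [hg]; exact Nat.ceil_lt_add_one (by linarith)
    linarith
  have hgge : 2 * E ≤ g := by rw [hg]; exact Nat.le_ceil _
  have hTle : (T : ℝ) ≤ 2 * E := by
    have : (T : ℝ) < E + 1 := by rw [hT]; exact Nat.ceil_lt_add_one (by linarith)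
    linarith
  have hTge : E ≤ T := by rw [hT]; exact Nat.le_ceil _
  have h2g : Real.exp E ≤ 2 ^ g := by
    have h1 : (2 : ℝ) ^ g = Real.exp (g * Real.log 2) := by
      rw [Real.exp_nat_mul, Real.exp_log (by norm_num)]
    rw [h1]
    apply Real.exp_le_exp.mpr
    have h2 := Real.log_two_gt_d9
    nlinarith
  have hcard : g * (T + 1) < S.card := by
    have h1 : (g : ℝ) * (T + 1) ≤ 12 * E ^ 2 := by
      have h2 : (T : ℝ) + 1 ≤ 3 * E := by linarith
      have h3 : (g : ℝ) * (T + 1) ≤ 3 * E * (3 * E) :=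
        mul_le_mul hgle h2 (by positivity) (by linarith)
      nlinarith
    have h2 : ((g * (T + 1) : ℕ) : ℝ) < S.card := by
      push_cast; linarith
    exact_mod_cast h2
  have hidx : ∀ t : Fin T, g * (t + 1) < S.card := by
    intro t
    refine lt_of_le_of_lt ?_ hcard
    apply Nat.mul_le_mul_left
    omega
  refine hno T hTge (fun t => S.orderEmbOfFin rfl ⟨g * (t + 1), hidx t⟩) ?_ ?_ ?_
  · intro t
    have h0 : 0 < S.card := by have := hidx t; omega
    have h1 := sep2_emb hS rfl 0 (g * (t + 1)) h0 (by have := hidx t; omega)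
    have h2 : 1 ≤ S.orderEmbOfFin rfl ⟨0, h0⟩ := hS.1 _ (Finset.orderEmbOfFin_mem _ _ _)
    have h3 : 2 ^ (g * (t + 1)) ≤ S.orderEmbOfFin rfl ⟨g * (t + 1), hidx t⟩ := by
      have h4 : (⟨0 + g * (t + 1), by have := hidx t; omega⟩ : Fin S.card) =
          ⟨g * (t + 1), hidx t⟩ := by
        apply Fin.ext; simp
      rw [h4] at h1
      exact (Nat.le_mul_of_pos_right _ h2).trans h1
    have h5 : 2 ^ g ≤ 2 ^ (g * ((t : ℕ) + 1)) :=
      Nat.pow_le_pow_right (by norm_num) (Nat.le_mul_of_pos_right _ (by omega))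
    refine h2g.trans ?_
    exact_mod_cast h5.trans h3
  · intro t t' htt
    have hlt : (t : ℕ) < t' := htt
    have h0 : g * ((t : ℕ) + 1) + g * (t' - t) = g * (t' + 1) := by
      rw [← Nat.mul_add]; congr 1; omega
    have h1 := sep2_emb hS rfl (g * (t + 1)) (g * (t' - t)) (hidx t) (by
      rw [h0]; exact hidx t')
    have h4 : (⟨g * ((t : ℕ) + 1) + g * (t' - t), by rw [h0]; exact hidx t'⟩ : Fin S.card) =
        ⟨g * (t' + 1), hidx t'⟩ := Fin.ext h0
    rw [h4] at h1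
    have h5 : 2 ^ g ≤ 2 ^ (g * ((t' : ℕ) - t)) :=
      Nat.pow_le_pow_right (by norm_num) (Nat.le_mul_of_pos_right _ (by omega))
    have h6 : 2 ^ g * S.orderEmbOfFin rfl ⟨g * (t + 1), hidx t⟩ ≤
        S.orderEmbOfFin rfl ⟨g * (t' + 1), hidx t'⟩ :=
      (Nat.mul_le_mul_right _ h5).trans h1
    have h7 : (2 : ℝ) ^ g * (S.orderEmbOfFin rfl ⟨g * (t + 1), hidx t⟩ : ℕ) ≤
        (S.orderEmbOfFin rfl ⟨g * (t' + 1), hidx t'⟩ : ℕ) := by exact_mod_cast h6
    refine le_trans ?_ h7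
    exact mul_le_mul_of_nonneg_right h2g (Nat.cast_nonneg _)
  · intro t
    exact hSP _ (Finset.orderEmbOfFin_mem _ _ _)

/-- enlarging the constant -/
theorem exp_sum_le (A B ρ : ℝ) (hA : 0 ≤ A) (hB : 0 ≤ B) (hρ : 1 ≤ ρ) :
    Real.exp (A * ρ ^ 2) + Real.exp (B * ρ ^ 2) ≤ Real.exp ((A + B + 1) * ρ ^ 2) := by
  have h1 : 1 ≤ ρ ^ 2 := by nlinarith
  refine (exp_add_le _ _ (by positivity) (by positivity)).trans ?_
  apply Real.exp_le_exp.mpr
  nlinarith

/-- **The separated subspace theorem: the exceptional scales are few.** -/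
theorem sepQ (ξ : ℝ) (hξ : IsIntegral ℤ ξ) (hirr : Irrational ξ) (κ : ℝ) (hκ : 0 < κ) (s : ℕ) :
    ∀ η : ℝ, 0 < η → η ≤ 1 → ∃ ε : ℝ, 0 < ε ∧ ∃ A : ℝ, 0 ≤ A ∧ ∀ b : ℕ, 2 ≤ b →
      ∀ ρ : ℝ, 1 ≤ ρ → Thin (BadQ b ξ s η ε κ ρ) (Real.exp (A * ρ ^ 2)) := by
  classical
  induction s with
  | zero =>
    intro η _ _
    refine ⟨1, one_pos, 0, le_refl _, ?_⟩
    intro b _ ρ _ S _ hS
    have h1 : S = ∅ := by
      by_contra hne
      obtain ⟨L, hL⟩ := Finset.nonempty_iff_ne_empty.mpr hne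
      exact not_badQ_zero _ _ _ _ _ _ _ (hS L hL)
    rw [h1]
    simp
  | succ s ih =>
    intro η hη hη1
    obtain ⟨ε', hε', A, hA, hih⟩ := ih (η / 8) (by positivity) (by linarith)
    obtain ⟨K, hK, hstep⟩ := stepQ s ξ hξ hirr κ η ε' hκ hη hη1 hε'
    refine ⟨min (min (ε' / 4) (η / 8) / 2) (κ / 2), ?_, A + (12 + 2 * K) + 1, by positivity, ?_⟩
    · apply lt_min
      · have : 0 < min (ε' / 4) (η / 8) := by apply lt_min <;> positivity
        positivity
      · positivity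
    intro b hb ρ hρ
    have h1 := hih b hb ρ hρ
    have hρ2 : 1 ≤ ρ ^ 2 := by nlinarith
    have h2 : Thin (fun L => BadQ b ξ (s + 1) η (min (min (ε' / 4) (η / 8) / 2) (κ / 2)) κ ρ L ∧
        ¬ BadQ b ξ s (η / 8) ε' κ ρ L) (12 * Real.exp (K * ρ ^ 2) ^ 2) := by
      apply thin_of_no_seq _ _ (Real.one_le_exp (by positivity))
      intro T hT L hL1 hL2 hP
      exact hstep b hb ρ hρ T hT L hL1 hL2 (fun t => (hP t).1) (fun t => (hP t).2)
    have h3 : 12 * Real.exp (K * ρ ^ 2) ^ 2 ≤ Real.exp ((12 + 2 * K) * ρ ^ 2) := by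
      have h4 : (12 : ℝ) ≤ Real.exp (12 * ρ ^ 2) := by
        refine le_trans ?_ (le_exp_self _)
        linarith
      have h5 : Real.exp ((12 + 2 * K) * ρ ^ 2) = Real.exp (12 * ρ ^ 2) * Real.exp (K * ρ ^ 2) ^ 2 := by
        rw [← Real.exp_nat_mul, ← Real.exp_add]
        congr 1
        push_cast; ring
      rw [h5]
      exact mul_le_mul_of_nonneg_right h4 (by positivity)
    refine (h1.or h2).mono ?_ ?_
    · intro L _ hbad
      by_cases h : BadQ b ξ s (η / 8) ε' κ ρ L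
      · exact Or.inl h
      · exact Or.inr ⟨hbad, h⟩
    · refine (add_le_add le_rfl h3).trans ?_
      exact exp_sum_le A (12 + 2 * K) ρ hA (by linarith) hρ

end Pool.Agent.H723.QS
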