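import Mathlib
import Pool.Graph.R_seed8.H648R2.S.Digits
import Pool.Agent.H723.QS.QCount

/-! The exceptional scales for sums of few powers with small coefficients, without separation. -/

set_option autoImplicit false

open Finset

namespace Pool.Agent.H723.QS

/-- an approximation by a sum of `D` small multiples of powers at the scale `L` -/
def Ex (b : ℕ) (ξ : ℝ) (D : ℕ) (η ε ρ : ℝ) (L : ℕ) : Prop :=
  ∃ e : Fin D → ℕ, (∀ i, L ≤ e i) ∧ (∀ i, (e i : ℝ) ≤ ρ * L) ∧
    ∃ lam : Fin D → ℤ, (∀ j, |(lam j : ℝ)| ≤ Real.exp (ε * (L * Real.log b))) ∧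
      ∑ j, lam j * (b : ℤ) ^ (e j) ≠ 0 ∧
      ∃ P : ℤ, |ξ * ∑ j, (lam j : ℝ) * (b : ℝ) ^ (e j) - P| ≤
        Real.exp (-(η * (L * Real.log b)))

theorem mergeQ (ξ : ℝ) (hξ : IsIntegral ℤ ξ) (hirr : Irrational ξ) (η : ℝ) (hη : 0 < η)
    (hη1 : η ≤ 1) (D : ℕ) :
    ∃ ε : ℝ, 0 < ε ∧ ∃ A : ℝ, 0 ≤ A ∧ ∀ b : ℕ, 2 ≤ b →
      ∀ ρ : ℝ, 1 ≤ ρ → Thin (Ex b ξ D η ε ρ) (Real.exp (A * ρ ^ 2)) := by
  classical
  induction D with
  | zero =>
    refine ⟨1, one_pos, 0, le_refl _, ?_⟩
    intro b _ ρ _ S _ hS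
    have h1 : S = ∅ := by
      by_contra hne
      obtain ⟨L, hL⟩ := Finset.nonempty_iff_ne_empty.mpr hne
      obtain ⟨e, _, _, lam, _, hne, _⟩ := hS L hL
      simp at hne
    rw [h1]
    simp
  | succ D ih =>
    obtain ⟨ε', hε', A1, hA1, h1⟩ := ih
    set κ : ℝ := ε' / 4 with hκ
    have hκ0 : 0 < κ := by positivity
    obtain ⟨ε2, hε2, A2, hA2, h2⟩ := sepQ ξ hξ hirr κ hκ0 (D + 1) η hη hη1
    set ε : ℝ := min ε2 (ε' / 4) with hεd
    have hε : 0 < ε := by rw [hεd]; apply lt_min hε2; positivity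
    obtain ⟨M, hM⟩ : ∃ M : ℕ, 2 / ε' ≤ M := exists_nat_ge _
    refine ⟨ε, hε, A1 + A2 + 1 + M + 1, by positivity, ?_⟩
    intro b hb ρ hρ
    have hbR : (2 : ℝ) ≤ b := by exact_mod_cast hb
    have hb0 : (0 : ℝ) < b := by linarith
    have hlogb : 0 < Real.log b := Real.log_pos (by linarith)
    have hρ2 : 1 ≤ ρ ^ 2 := by nlinarith
    refine (((h1 b hb ρ hρ).or (h2 b hb ρ hρ)).or (thin_small M)).mono ?_ ?_
    · intro L _ hEx
      by_cases hLM : L < M
      · exact Or.inr hLM
      left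
      push Not at hLM
      obtain ⟨e, he1, he2, lam, hlam, hne, P, hP⟩ := hEx
      have hL3 : 2 / ε' ≤ L := le_trans hM (by exact_mod_cast hLM)
      set N : ℝ := (L : ℝ) * Real.log b with hN
      have hN0 : 0 ≤ N := by rw [hN]; positivity
      have htwo : 2 ≤ Real.exp (ε' / 2 * N) := by
        apply Pool.Agent.H393R2.two_le_exp hb
        rw [div_le_iff₀ hε'] at hL3
        linarith
      by_cases hsep : ∀ i j, i ≠ j → κ * L ≤ |(e i : ℝ) - e j|
      · right
        refine ⟨e, ⟨he1, he2, hsep⟩, lam, ?_, ?_, P, hP⟩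
        · rintro rfl
          apply hne
          simp
        · intro j
          exact le_trans (hlam j) (Real.exp_le_exp.mpr
            (mul_le_mul_of_nonneg_right (min_le_left _ _) hN0))
      · left
        push Not at hsep
        obtain ⟨i0, j0, hij0, hlt0⟩ := hsep
        -- choose i with the larger exponent
        obtain ⟨i, j, hij, hle, hlt⟩ : ∃ i j : Fin (D + 1), i ≠ j ∧ e j ≤ e i ∧
            ((e i - e j : ℕ) : ℝ) < κ * L := by
          rcases le_total (e j0) (e i0) with h | h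
          · refine ⟨i0, j0, hij0, h, ?_⟩
            rw [Nat.cast_sub h]
            exact lt_of_le_of_lt (le_abs_self _) hlt0
          · refine ⟨j0, i0, Ne.symm hij0, h, ?_⟩
            rw [Nat.cast_sub h]
            rw [abs_sub_comm] at hlt0
            exact lt_of_le_of_lt (le_abs_self _) hlt0
        obtain ⟨k, hk⟩ := Fin.exists_succAbove_eq (Ne.symm hij)
        set e' : Fin D → ℕ := fun l => e (i.succAbove l) with he'
        set lam' : Fin D → ℤ := fun l => lam (i.succAbove l) +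
          if l = k then lam i * (b : ℤ) ^ (e i - e j) else 0 with hlam'
        have hsumZ : ∑ l, lam' l * (b : ℤ) ^ (e' l) = ∑ l, lam l * (b : ℤ) ^ (e l) := by
          rw [Fin.sum_univ_succAbove _ i]
          simp only [hlam', he', add_mul, Finset.sum_add_distrib]
          rw [add_comm]
          congr 1
          rw [Finset.sum_eq_single k]
          · rw [if_pos rfl, hk, mul_assoc, ← pow_add]
            congr 2
            omega
          · intro l _ hl
            rw [if_neg hl, zero_mul]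
          · intro h; exact absurd (Finset.mem_univ _) h
        have hsumR : ∑ l, (lam' l : ℝ) * (b : ℝ) ^ (e' l) = ∑ l, (lam l : ℝ) * (b : ℝ) ^ (e l) := by
          exact_mod_cast congrArg (Int.cast (R := ℝ)) hsumZ
        refine ⟨e', fun l => he1 _, fun l => he2 _, lam', ?_, ?_, P, ?_⟩
        · intro l
          have h4 : |(lam' l : ℝ)| ≤ |(lam (i.succAbove l) : ℝ)| +
              |(lam i : ℝ)| * (b : ℝ) ^ (e i - e j) := by
            rw [hlam']
            push_cast
            refine le_trans (abs_add_le _ _) ?_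
            apply add_le_add le_rfl
            split_ifs
            · rw [abs_mul, abs_of_pos (by positivity : (0 : ℝ) < (b : ℝ) ^ (e i - e j))]
            · rw [abs_zero]; positivity
          have h5 : (b : ℝ) ^ (e i - e j) ≤ Real.exp (κ * N) := by
            have h4 : (b : ℝ) ^ (e i - e j : ℕ) = Real.exp ((e i - e j : ℕ) * Real.log b) := by
              rw [← Real.rpow_natCast, Real.rpow_def_of_pos hb0, mul_comm]
            rw [h4]
            apply Real.exp_le_exp.mpr
            rw [hN, ← mul_assoc]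
            exact mul_le_mul_of_nonneg_right hlt.le hlogb.le
          have hεε : ε ≤ ε' / 4 := min_le_right _ _
          have h6 : |(lam (i.succAbove l) : ℝ)| ≤ Real.exp (ε' / 4 * N + κ * N) := by
            refine le_trans (hlam _) (Real.exp_le_exp.mpr ?_)
            have : 0 ≤ κ * N := by positivity
            have h7 : ε * N ≤ ε' / 4 * N := mul_le_mul_of_nonneg_right hεε hN0
            linarith
          have h7 : |(lam i : ℝ)| * (b : ℝ) ^ (e i - e j) ≤ Real.exp (ε' / 4 * N + κ * N) := by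
            rw [Real.exp_add]
            apply mul_le_mul _ h5 (by positivity) (Real.exp_pos _).le
            refine le_trans (hlam _) (Real.exp_le_exp.mpr ?_)
            exact mul_le_mul_of_nonneg_right hεε hN0
          have h8 : Real.exp (ε' / 4 * N + κ * N) ≤ Real.exp (ε' / 2 * N) := by
            apply Real.exp_le_exp.mpr
            rw [hκ]
            linarith
          calc |(lam' l : ℝ)| ≤ Real.exp (ε' / 2 * N) + Real.exp (ε' / 2 * N) := by linarith
            _ = 2 * Real.exp (ε' / 2 * N) := by ring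
            _ ≤ Real.exp (ε' / 2 * N) * Real.exp (ε' / 2 * N) :=
              mul_le_mul_of_nonneg_right htwo (Real.exp_pos _).le
            _ = Real.exp (ε' * N) := by rw [← Real.exp_add]; congr 1; ring
        · rw [hsumZ]; exact hne
        · rw [hsumR]; exact hP
    · have h5 : (M : ℝ) ≤ Real.exp (M * ρ ^ 2) := by
        refine le_trans ?_ (le_exp_self _)
        exact le_mul_of_one_le_right (Nat.cast_nonneg _) hρ2
      refine (add_le_add (exp_sum_le A1 A2 ρ hA1 hA2 hρ) h5).trans ?_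
      exact exp_sum_le (A1 + A2 + 1) M ρ (by positivity) (Nat.cast_nonneg _) hρ

/-- the same for all real algebraic irrational numbers -/
theorem mergeQ' (ξ : ℝ) (hξ : IsAlgebraic ℚ ξ) (hirr : Irrational ξ) (D : ℕ) :
    ∃ ε : ℝ, 0 < ε ∧ ∃ A : ℝ, 0 ≤ A ∧ ∀ b : ℕ, 2 ≤ b →
      ∀ ρ : ℝ, 1 ≤ ρ → Thin (Ex b ξ D (1 / 2) ε ρ) (Real.exp (A * ρ ^ 2)) := by
  have hz : IsAlgebraic ℤ ξ := (IsFractionRing.isAlgebraic_iff ℤ ℚ ℝ).mpr hξ
  obtain ⟨k, hk0, hk⟩ := hz.exists_integral_multiple
  have hk0R : (k : ℝ) ≠ 0 := by exact_mod_cast hk0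
  have hkint : IsIntegral ℤ ((k : ℝ) * ξ) := by
    have : (k : ℝ) * ξ = k • ξ := by simp
    rw [this]; exact hk
  have hkirr : Irrational ((k : ℝ) * ξ) := hirr.intCast_mul hk0
  obtain ⟨ε, hε, A, hA, h⟩ := mergeQ ((k : ℝ) * ξ) hkint hkirr (1 / 4) (by norm_num) (by norm_num) D
  obtain ⟨M, hM⟩ : ∃ M : ℕ, 8 * Real.log |(k : ℝ)| ≤ M := exists_nat_ge _
  refine ⟨ε, hε, A + M + 1, by positivity, ?_⟩
  intro b hb ρ hρ
  have hbR : (2 : ℝ) ≤ b := by exact_mod_cast hb
  have hlog2 : 1 / 2 ≤ Real.log b := by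
    have h1 : Real.log 2 ≤ Real.log b := Real.log_le_log (by norm_num) hbR
    have h2 := Real.log_two_gt_d9
    linarith
  have hρ2 : 1 ≤ ρ ^ 2 := by nlinarith
  refine ((h b hb ρ hρ).or (thin_small M)).mono ?_ ?_
  · intro L _ hEx
    by_cases hLM : L < M
    · exact Or.inr hLM
    left
    push Not at hLM
    obtain ⟨e, he1, he2, lam, hlam, hne, P, hP⟩ := hEx
    refine ⟨e, he1, he2, lam, hlam, hne, k * P, ?_⟩
    have h2 : (k : ℝ) * ξ * ∑ j, (lam j : ℝ) * (b : ℝ) ^ (e j) - ((k * P : ℤ) : ℝ) =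
        k * (ξ * ∑ j, (lam j : ℝ) * (b : ℝ) ^ (e j) - P) := by
      push_cast; ring
    rw [h2, abs_mul]
    have hkpos : 0 < |(k : ℝ)| := abs_pos.mpr hk0R
    have hLM' : (M : ℝ) ≤ L := by exact_mod_cast hLM
    have hL0 : (0 : ℝ) ≤ L := Nat.cast_nonneg _
    calc |(k : ℝ)| * |ξ * ∑ j, (lam j : ℝ) * (b : ℝ) ^ (e j) - P| ≤
          Real.exp (Real.log |(k : ℝ)|) * Real.exp (-(1 / 2 * (L * Real.log b))) := by
          rw [Real.exp_log hkpos]
          exact mul_le_mul_of_nonneg_left hP hkpos.le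
      _ = Real.exp (Real.log |(k : ℝ)| + -(1 / 2 * (L * Real.log b))) := by rw [Real.exp_add]
      _ ≤ Real.exp (-(1 / 4 * (L * Real.log b))) := by
        apply Real.exp_le_exp.mpr
        nlinarith
  · have h5 : (M : ℝ) ≤ Real.exp (M * ρ ^ 2) := by
      refine le_trans ?_ (le_exp_self _)
      exact le_mul_of_one_le_right (Nat.cast_nonneg _) hρ2
    refine (add_le_add le_rfl h5).trans ?_
    exact exp_sum_le A M ρ hA (Nat.cast_nonneg _) hρ

end Pool.Agent.H723.QS
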