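import Mathlib
import Pool.Graph.R_seed8.H648R2.S.Digits
import Pool.Agent.H723.QS.QMerge

/-! Dependent windows of digits occur at few scales only. -/

set_option autoImplicit false

open Finset Polynomial

namespace Pool.Agent.H723.QS

open Pool.Agent.H648R2.S

/-- a division of the scales -/
theorem Thin.div {P P' : ℕ → Prop} {B : ℝ} (h : Thin P B) (q M : ℕ) (hq : 1 ≤ q)
    (hPP : ∀ m, M ≤ m → q ≤ m → P' m → P (m / q)) : Thin P' (B + (M + q : ℕ)) := by
  classical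
  intro S hS hSP
  set S1 : Finset ℕ := S.filter (fun m => M + q ≤ m) with hS1
  have hinj : Set.InjOn (fun m => m / q) (S1 : Set ℕ) := by
    intro m hm m' hm' heq
    have h1 := Finset.mem_filter.mp (Finset.mem_coe.mp hm)
    have h2 := Finset.mem_filter.mp (Finset.mem_coe.mp hm')
    have aux : ∀ m m' : ℕ, q ≤ m → 2 * m ≤ m' → m / q < m' / q := by
      intro m m' h3 h4
      have h5 : 1 ≤ m / q := (Nat.one_le_div_iff (by omega)).mpr h3
      have h6 : 2 * (m / q) ≤ m' / q := by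
        rw [Nat.le_div_iff_mul_le (by omega)]
        have h7 := Nat.div_mul_le_self m q
        nlinarith
      omega
    simp only at heq
    rcases lt_trichotomy m m' with hlt | heq' | hlt
    · have := aux m m' (by omega) (hS.2 m h1.1 m' h2.1 hlt)
      omega
    · exact heq'
    · have := aux m' m (by omega) (hS.2 m' h2.1 m h1.1 hlt)
      omega
  have hsep : Sep2 (S1.image (fun m => m / q)) := by
    constructor
    · intro L hL
      obtain ⟨m, hm, rfl⟩ := Finset.mem_image.mp hL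
      have h1 := Finset.mem_filter.mp hm
      exact (Nat.one_le_div_iff (by omega)).mpr (by omega)
    · intro L hL L' hL' hlt
      obtain ⟨m, hm, rfl⟩ := Finset.mem_image.mp hL
      obtain ⟨m', hm', rfl⟩ := Finset.mem_image.mp hL'
      have h1 := Finset.mem_filter.mp hm
      have h2 := Finset.mem_filter.mp hm'
      have hmm : m < m' := by
        by_contra hcon
        push Not at hcon
        have := Nat.div_le_div_right (c := q) hcon
        omega
      have h3 := hS.2 m h1.1 m' h2.1 hmm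
      rw [Nat.le_div_iff_mul_le (by omega)]
      have h7 := Nat.div_mul_le_self m q
      nlinarith
  have h1 := h _ hsep (by
    intro L hL
    obtain ⟨m, hm, rfl⟩ := Finset.mem_image.mp hL
    have h1 := Finset.mem_filter.mp hm
    exact hPP m (by omega) (by omega) (hSP m h1.1))
  rw [Finset.card_image_of_injOn hinj] at h1
  have h2 : S ⊆ S1 ∪ Finset.range (M + q) := by
    intro m hm
    rw [Finset.mem_union, Finset.mem_range, hS1, Finset.mem_filter]
    by_cases h3 : M + q ≤ m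
    · exact Or.inl ⟨hm, h3⟩
    · exact Or.inr (by omega)
  have h3 := (Finset.card_le_card h2).trans (Finset.card_union_le _ _)
  rw [Finset.card_range] at h3
  have h4 : (S.card : ℝ) ≤ S1.card + (M + q : ℕ) := by exact_mod_cast h3
  linarith

theorem le_exp_mul (x : ℝ) (ρ : ℝ) (hx : 0 ≤ x) (hρ : 1 ≤ ρ) : x ≤ Real.exp (x * ρ ^ 2) := by
  have hρ2 : 1 ≤ ρ ^ 2 := by nlinarith
  refine le_trans ?_ (le_exp_self _)
  exact le_mul_of_one_le_right hx hρ2

/-- a finite union over the number of terms -/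
theorem thin_union (P : ℕ → ℝ → ℕ → Prop) (h : ∀ s, ∃ A : ℝ, 0 ≤ A ∧ ∀ ρ : ℝ, 1 ≤ ρ →
    Thin (P s ρ) (Real.exp (A * ρ ^ 2))) (D : ℕ) :
    ∃ A : ℝ, 0 ≤ A ∧ ∀ ρ : ℝ, 1 ≤ ρ → Thin (fun L => ∃ s, s ≤ D ∧ P s ρ L)
      (Real.exp (A * ρ ^ 2)) := by
  induction D with
  | zero =>
    obtain ⟨A, hA, h1⟩ := h 0
    refine ⟨A, hA, fun ρ hρ => (h1 ρ hρ).mono ?_ le_rfl⟩
    rintro L _ ⟨s, hs, h2⟩
    obtain rfl : s = 0 := by omega
    exact h2
  | succ D ih =>
    obtain ⟨A, hA, h1⟩ := h (D + 1)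
    obtain ⟨A', hA', h2⟩ := ih
    refine ⟨A + A' + 1, by linarith, fun ρ hρ => ((h1 ρ hρ).or (h2 ρ hρ)).mono ?_ ?_⟩
    · rintro L _ ⟨s, hs, h3⟩
      rcases Nat.lt_or_ge s (D + 1) with h4 | h4
      · exact Or.inr ⟨s, by omega, h3⟩
      · obtain rfl : s = D + 1 := by omega
        exact Or.inl h3
    · exact exp_sum_le A A' ρ hA hA' hρ

/-- an exceptional approximation by the value of a polynomial with few bounded coefficients -/
def ExP (b : ℕ) (ξ : ℝ) (D H : ℕ) (ρ : ℝ) (L : ℕ) : Prop :=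
  ∃ Q : ℤ[X], Q.support.card ≤ D ∧ (∀ i, |Q.coeff i| ≤ H) ∧ (L : ℝ) + Q.natDegree ≤ ρ * L ∧
    Q.eval (b : ℤ) ≠ 0 ∧ ∃ P : ℤ,
      |ξ * ((b : ℝ) ^ L * ((Q.eval (b : ℤ) : ℤ) : ℝ)) - P| ≤ Real.exp (-(1 / 2 * (L * Real.log b)))

theorem merge_polyQ (b : ℕ) (hb : 2 ≤ b) (ξ : ℝ) (hξ : IsAlgebraic ℚ ξ) (hirr : Irrational ξ)
    (D H : ℕ) :
    ∃ A : ℝ, 0 ≤ A ∧ ∀ ρ : ℝ, 1 ≤ ρ → Thin (ExP b ξ D H ρ) (Real.exp (A * ρ ^ 2)) := by
  have hbR : (2 : ℝ) ≤ b := by exact_mod_cast hb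
  have hb0 : (0 : ℝ) < b := by linarith
  have hlogb : 0 < Real.log b := Real.log_pos (by linarith)
  choose ε hε A hA h1 using fun s => mergeQ' ξ hξ hirr s
  obtain ⟨A', hA', h2⟩ := thin_union
    (fun s ρ L => Ex b ξ s (1 / 2) (ε s) ρ L ∨ (L : ℝ) < (H : ℝ) / (ε s * Real.log b))
    (by
      intro s
      obtain ⟨M, hM⟩ : ∃ M : ℕ, (H : ℝ) / (ε s * Real.log b) ≤ M := exists_nat_ge _
      refine ⟨A s + M + 1, by have := hA s; positivity, fun ρ hρ =>
        ((h1 s b hb ρ hρ).or (thin_small M)).mono ?_ ?_⟩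
      · rintro L _ (h | h)
        · exact Or.inl h
        · right
          exact_mod_cast lt_of_lt_of_le h hM
      · refine (add_le_add le_rfl (le_exp_mul M ρ (Nat.cast_nonneg _) hρ)).trans ?_
        exact exp_sum_le (A s) M ρ (hA s) (Nat.cast_nonneg _) hρ) D
  refine ⟨A', hA', fun ρ hρ => (h2 ρ hρ).mono ?_ le_rfl⟩
  rintro L _ ⟨Q, hQD, hQH, hdeg, hev, P, hP⟩
  set s := Q.support.card with hs
  refine ⟨s, hQD, ?_⟩
  by_cases hL2 : (L : ℝ) < (H : ℝ) / (ε s * Real.log b)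
  · exact Or.inr hL2
  left
  push Not at hL2
  have hHexp : (H : ℝ) ≤ Real.exp (ε s * (L * Real.log b)) := by
    rw [div_le_iff₀ (mul_pos (hε s) hlogb)] at hL2
    have h2 : ε s * (L * Real.log b) = L * (ε s * Real.log b) := by ring
    rw [h2]
    have h3 := Real.add_one_le_exp (L * (ε s * Real.log b))
    linarith
  let f : Fin s ≃ Q.support := (Q.support.equivFinOfCardEq rfl).symm
  have hsum : ∀ g : ℕ → ℤ, ∑ j : Fin s, g (f j : ℕ) = ∑ i ∈ Q.support, g i := by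
    intro g
    rw [← Finset.sum_coe_sort Q.support g]
    exact Equiv.sum_comp f (fun i : Q.support => g (i : ℕ))
  have hfdeg : ∀ j, (f j : ℕ) ≤ Q.natDegree := by
    intro j
    exact le_natDegree_of_mem_supp _ (f j).2
  have hval : ∑ j : Fin s, Q.coeff (f j) * (b : ℤ) ^ (L + (f j : ℕ)) =
      (b : ℤ) ^ L * Q.eval (b : ℤ) := by
    rw [hsum (fun i => Q.coeff i * (b : ℤ) ^ (L + i)), eval_eq_sum, Polynomial.sum_def,
      Finset.mul_sum]
    apply Finset.sum_congr rfl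
    intro i _
    rw [pow_add]; ring
  have hvalR : ∑ j : Fin s, (Q.coeff (f j) : ℝ) * (b : ℝ) ^ (L + (f j : ℕ)) =
      (b : ℝ) ^ L * ((Q.eval (b : ℤ) : ℤ) : ℝ) := by
    exact_mod_cast congrArg (Int.cast (R := ℝ)) hval
  have hb0Z : (b : ℤ) ≠ 0 := by omega
  refine ⟨fun j => L + (f j : ℕ), fun j => Nat.le_add_right _ _, ?_, fun j => Q.coeff (f j), ?_, ?_,
    P, ?_⟩
  · intro j
    refine le_trans ?_ hdeg
    push_cast
    have : ((f j : ℕ) : ℝ) ≤ Q.natDegree := by exact_mod_cast hfdeg j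
    linarith
  · intro j
    refine le_trans ?_ hHexp
    exact_mod_cast hQH (f j)
  · rw [hval]
    exact mul_ne_zero (pow_ne_zero _ hb0Z) hev
  · rw [hvalR]
    exact hP

/-- **Core theorem.**  Short integer polynomials in the shift kill a long window of the
expansion of an algebraic irrational number at few scales only. -/
theorem coreQ (b : ℕ) (hb : 2 ≤ b) (ξ : ℝ) (hξ : IsAlgebraic ℚ ξ) (hirr : Irrational ξ)
    (B D H : ℕ) :
    ∃ A : ℝ, 0 ≤ A ∧ ∀ (c : ℕ → ℤ) (x : ℕ → ℝ), (∀ n, |c n| ≤ B) → (∀ n, |x n| ≤ B) →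
      (∀ n, (b : ℝ) * x n = c (n + 1) + x (n + 1)) → (∀ n, ∃ k : ℤ, ξ * (b : ℝ) ^ n - x n = k) →
      ∀ C : ℝ, 1 ≤ C → Thin (fun m => ∃ P : ℤ[X], P ≠ 0 ∧ P.support.card ≤ D ∧
        (∀ i, |P.coeff i| ≤ H) ∧ (P.natDegree : ℝ) ≤ C * m ∧ ∀ n, 1 ≤ n → n ≤ m → act P c n = 0)
        (Real.exp (A * C ^ 2)) := by
  have hbR : (2 : ℝ) ≤ b := by exact_mod_cast hb
  have hb0 : (0 : ℝ) < b := by linarith
  have hlogb : 0 < Real.log b := Real.log_pos (by linarith)
  obtain ⟨D', K, helim⟩ := elim' hb H B D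
  obtain ⟨A, hA, hmerge⟩ := merge_polyQ b hb ξ hξ hirr D' H
  set G : ℕ := D' * H * B with hG
  obtain ⟨M0, hM0⟩ : ∃ M0 : ℕ, M0 = 2 * (2 * (K + G) + 2) := ⟨_, rfl⟩
  refine ⟨16 * A + (M0 + 2 : ℕ) + 1, by positivity, ?_⟩
  intro c x hc hx hrec hint C hC
  have hC4 : 1 ≤ 3 * C + 1 := by linarith
  refine ((hmerge (3 * C + 1) hC4).div 2 M0 (by norm_num) ?_).mono (fun L _ h => h) ?_
  swap
  · have h1 : Real.exp (A * (3 * C + 1) ^ 2) ≤ Real.exp (16 * A * C ^ 2) := by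
      apply Real.exp_le_exp.mpr
      have h2 : (3 * C + 1) ^ 2 ≤ 16 * C ^ 2 := by nlinarith
      nlinarith
    refine (add_le_add h1 (le_exp_mul ((M0 + 2 : ℕ) : ℝ) C (Nat.cast_nonneg _) hC)).trans ?_
    exact exp_sum_le (16 * A) ((M0 + 2 : ℕ) : ℝ) C (by positivity) (Nat.cast_nonneg _) hC
  rintro m hm _ ⟨P, hP0, hPD, hPH, hPdeg, hcon⟩
  obtain ⟨Q, hQD, hQH, hQdeg, hev, hQ⟩ := helim c hc m P hP0 hPD hPH
    (fun n h1 h2 => hcon n h1 h2)
  set L : ℕ := m / 2 with hL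
  have hLm : 2 * L ≤ m := by omega
  have hLm' : m ≤ 2 * L + 1 := by omega
  have hLL0 : 2 * (K + G) + 1 ≤ L := by omega
  have hL1 : 1 ≤ L := by omega
  have hδdeg : (L : ℝ) + Q.natDegree ≤ (3 * C + 1) * L := by
    have h0 : (Q.natDegree : ℝ) ≤ P.natDegree := by exact_mod_cast hQdeg
    have h1 : (m : ℝ) ≤ 2 * L + 1 := by exact_mod_cast hLm'
    have h2 : (1 : ℝ) ≤ L := by exact_mod_cast hL1
    nlinarith
  -- the real tail
  have hrec' : ∀ n, (b : ℝ) * act Q x n = ((act Q c (n + 1) : ℤ) : ℝ) + act Q x (n + 1) := by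
    intro n
    have h1 : (b : ℤ) • x = (fun k => ((c (k + 1) : ℤ) : ℝ)) + fun k => x (k + 1) := by
      funext k
      simp only [Pi.smul_apply, Pi.add_apply, zsmul_eq_mul]
      push_cast
      exact hrec k
    have h2 := congrFun (congrArg (act Q) h1) n
    rw [act_zsmul, act_add, Pi.smul_apply, Pi.add_apply, zsmul_eq_mul,
      act_E Q (fun k => ((c k : ℤ) : ℝ)) n, act_E, act_cast] at h2
    push_cast at h2
    exact h2
  have hup : ∀ j, L + j ≤ m - K → (b : ℝ) ^ j * act Q x L = act Q x (L + j) := by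
    intro j
    induction j with
    | zero => intro _; simp
    | succ j ih =>
      intro hj
      have h1 := ih (by omega)
      have h2 := hrec' (L + j)
      rw [hQ (L + j + 1) (by omega) (by omega)] at h2
      rw [pow_succ', mul_assoc, h1, h2]
      simp [add_assoc]
  have hb1 : |act Q x L| * (b : ℝ) ^ (m - K - L) ≤ G := by
    have h1 := hup (m - K - L) (by omega)
    have h2 := abs_act_le Q x D' H B hQD hQH hx (L + (m - K - L))
    rw [← h1, abs_mul, abs_of_pos (by positivity : (0 : ℝ) < (b : ℝ) ^ (m - K - L))] at h2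
    rw [mul_comm]
    exact h2
  -- the integer
  choose kk hkk using hint
  have hintQ : ξ * ((b : ℝ) ^ L * ((Q.eval (b : ℤ) : ℤ) : ℝ)) - act Q x L =
      ((act Q kk L : ℤ) : ℝ) := by
    have h1 : (fun n => ξ * (b : ℝ) ^ n) = x + fun n => ((kk n : ℤ) : ℝ) := by
      funext n
      simp only [Pi.add_apply]
      rw [← hkk n]; ring
    have h2 := congrFun (congrArg (act Q) h1) L
    rw [act_add, Pi.add_apply, act_cast] at h2
    have h2' : act Q (fun n => ξ * (b : ℝ) ^ n) L =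
        ξ * ((b : ℝ) ^ L * ((Q.eval (b : ℤ) : ℤ) : ℝ)) := by
      rw [act_eq, eval_eq_sum, Polynomial.sum_def]
      push_cast
      rw [Finset.mul_sum, Finset.mul_sum]
      apply Finset.sum_congr rfl
      intro i _
      rw [zsmul_eq_mul, pow_add]; ring
    rw [h2'] at h2
    linarith
  refine ⟨Q, hQD, hQH, hδdeg, hev, act Q kk L, ?_⟩
  rw [← hintQ]
  have h4 : ξ * ((b : ℝ) ^ L * ((Q.eval (b : ℤ) : ℤ) : ℝ)) -
      (ξ * ((b : ℝ) ^ L * ((Q.eval (b : ℤ) : ℤ) : ℝ)) - act Q x L) = act Q x L := by ring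
  rw [h4]
  have hpow : (b : ℝ) ^ (m - K - L) = Real.exp (((m - K - L : ℕ) : ℝ) * Real.log b) := by
    rw [← Real.rpow_natCast, Real.rpow_def_of_pos hb0, mul_comm]
  have hGexp : (G : ℝ) ≤ Real.exp (G * Real.log b) := by
    have h5 : Real.exp (G * Real.log b) = (b : ℝ) ^ G := by
      rw [← Real.rpow_natCast, Real.rpow_def_of_pos hb0, mul_comm]
    rw [h5]
    have : G < b ^ G := Nat.lt_pow_self (by omega)
    exact_mod_cast this.le
  have h6 : |act Q x L| ≤ Real.exp (G * Real.log b) *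
      Real.exp (-(((m - K - L : ℕ) : ℝ) * Real.log b)) := by
    rw [Real.exp_neg, ← hpow, ← div_eq_mul_inv, le_div_iff₀ (by positivity)]
    exact hb1.trans hGexp
  refine h6.trans ?_
  rw [← Real.exp_add]
  apply Real.exp_le_exp.mpr
  have h8 : ((m - K - L : ℕ) : ℝ) ≥ L - K := by
    have h9 : L ≤ (m - K - L) + K := by omega
    have h10 : (L : ℝ) ≤ ((m - K - L : ℕ) : ℝ) + K := by exact_mod_cast h9
    linarith
  have h10 : (2 * (K + G) : ℝ) + 1 ≤ L := by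
    have : 2 * (K + G) + 1 ≤ L := by omega
    exact_mod_cast this
  have h11 : (G : ℝ) - ((m - K - L : ℕ) : ℝ) ≤ -(1 / 2 * L) := by linarith
  nlinarith

/-- **Window independence** for a bounded integer expansion of an algebraic irrational fails at
few scales only. -/
theorem window_indepQ (b : ℕ) (hb : 2 ≤ b) (ξ : ℝ) (hξ : IsAlgebraic ℚ ξ) (hirr : Irrational ξ)
    (B D : ℕ) :
    ∃ A : ℝ, 0 ≤ A ∧ ∀ (c : ℕ → ℤ) (x : ℕ → ℝ), (∀ n, |c n| ≤ B) → (∀ n, |x n| ≤ B) →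
      (∀ n, (b : ℝ) * x n = c (n + 1) + x (n + 1)) → (∀ n, ∃ k : ℤ, ξ * (b : ℝ) ^ n - x n = k) →
      ∀ C : ℝ, 1 ≤ C → Thin (fun m => ∃ t : Fin D → ℕ, Function.Injective t ∧
        (∀ j, (t j : ℝ) ≤ C * m) ∧
        ¬ LinearIndependent ℚ (fun (j : Fin D) (i : Fin m) => (c (t j + i + 1) : ℚ)))
        (Real.exp (A * C ^ 2)) := by
  obtain ⟨H, hH⟩ := uniform_rel D B
  obtain ⟨A, hA, hM⟩ := coreQ b hb ξ hξ hirr B D H
  refine ⟨A, hA, ?_⟩
  intro c x hc hx hrec hint C hC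
  refine (hM c x hc hx hrec hint C hC).mono ?_ le_rfl
  rintro m _ ⟨t, ht, htC, hdep⟩
  rw [← LinearIndependent.iff_fractionRing (R := ℤ), Fintype.not_linearIndependent_iff] at hdep
  obtain ⟨g, hg, j0, hj0⟩ := hdep
  obtain ⟨g', hg'0, hg'H, hg'⟩ := hH m (fun j i => c (t j + i + 1)) (fun j i => hc _)
    ⟨g, fun h => hj0 (by rw [h]; rfl), by
      intro i
      have h1 := congrFun hg i
      rw [Finset.sum_apply] at h1
      have h2 : ∑ j, (g j : ℚ) * (c (t j + i + 1) : ℚ) = 0 := by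
        rw [← h1.trans (Pi.zero_apply i)]
        apply Finset.sum_congr rfl
        intro j _
        rw [Pi.smul_apply, zsmul_eq_mul]
      exact_mod_cast h2⟩
  refine ⟨sp t g', ?_, sp_supp_card t g', ?_, ?_, ?_⟩
  · intro h0
    apply hg'0
    funext j
    rw [← sp_coeff_self t ht g' j, h0]; simp
  · intro i
    by_cases hi : i ∈ (sp t g').support
    · obtain ⟨j, _, rfl⟩ := Finset.mem_image.1 (sp_supp t g' hi)
      rw [sp_coeff_self t ht]; exact hg'H j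
    · rw [notMem_support_iff.1 hi, abs_zero]; positivity
  · have h1 : (sp t g').natDegree ≤ ⌊C * m⌋₊ :=
      sp_natDegree t g' _ (fun j => Nat.le_floor (htC j))
    have h2 : (⌊C * m⌋₊ : ℝ) ≤ C * m := Nat.floor_le (by positivity)
    have h3 : ((sp t g').natDegree : ℝ) ≤ ⌊C * m⌋₊ := by exact_mod_cast h1
    linarith
  intro n hn1 hn2
  rw [sp_act]
  have h1 := hg' ⟨n - 1, by omega⟩
  rw [← h1]
  apply Finset.sum_congr rfl
  intro j _
  congr 2
  simp only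
  omega

/-- dependent windows of digits, over `ℝ` -/
def Dep (b : ℕ) (ξ : ℝ) (D : ℕ) (C : ℝ) (m : ℕ) : Prop :=
  ∃ t : Fin D → ℕ, Function.Injective t ∧ (∀ j, (t j : ℝ) ≤ C * m) ∧
    ¬ LinearIndependent ℝ (fun (j : Fin D) (i : Fin m) => (dig b ξ (t j + i + 1) : ℝ))

theorem dig_indepQ (b : ℕ) (hb : 2 ≤ b) (ξ : ℝ) (hξ : IsAlgebraic ℚ ξ) (hirr : Irrational ξ)
    (D : ℕ) :
    ∃ A : ℝ, 0 ≤ A ∧ ∀ C : ℝ, 1 ≤ C → Thin (Dep b ξ D C) (Real.exp (A * C ^ 2)) := by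
  obtain ⟨A, hA, hM⟩ := window_indepQ b hb ξ hξ hirr b D
  refine ⟨A, hA, fun C hC => ?_⟩
  have h0 := hM (dig b ξ) (fun n => Int.fract (ξ * (b : ℝ) ^ n)) (dig_abs hb ξ)
    (by
      intro n
      rw [abs_of_nonneg (Int.fract_nonneg _)]
      have h1 := (Int.fract_lt_one (ξ * (b : ℝ) ^ n)).le
      have h2 : (1 : ℝ) ≤ b := by exact_mod_cast (by omega : 1 ≤ b)
      linarith)
    (dig_rec hb ξ) (fun n => ⟨⌊ξ * (b : ℝ) ^ n⌋, by unfold Int.fract; ring⟩) C hC
  refine h0.mono ?_ le_rfl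
  rintro m _ ⟨t, ht, htC, hdep⟩
  refine ⟨t, ht, htC, ?_⟩
  intro h1
  apply hdep
  rw [Fintype.linearIndependent_iff] at h1 ⊢
  intro g hg j
  rw [← Module.forall_dual_apply_eq_zero_iff ℚ (g j)]
  intro φ
  refine h1 (fun j => φ (g j)) ?_ j
  funext i
  have h2 := congrFun hg i
  rw [Finset.sum_apply] at h2
  rw [Finset.sum_apply]
  have h3 : φ (∑ j, (g j • fun (i : Fin m) => (dig b ξ (t j + i + 1) : ℝ)) i) = 0 := by
    rw [h2]; simp
  rw [map_sum] at h3
  rw [Pi.zero_apply, ← h3]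
  apply Finset.sum_congr rfl
  intro k _
  simp only [Pi.smul_apply, smul_eq_mul]
  have h4 : g k * (dig b ξ (t k + i + 1) : ℝ) = dig b ξ (t k + i + 1) • g k := by
    rw [zsmul_eq_mul]; ring
  rw [h4, map_zsmul, zsmul_eq_mul]
  ring


/-- the same for all numbers of windows up to `D` -/
theorem dep_allQ (b : ℕ) (hb : 2 ≤ b) (ξ : ℝ) (hξ : IsAlgebraic ℚ ξ) (hirr : Irrational ξ)
    (D : ℕ) :
    ∃ A : ℝ, 0 ≤ A ∧ ∀ C : ℝ, 1 ≤ C → Thin (fun m => ∃ D', D' ≤ D ∧ Dep b ξ D' C m)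
      (Real.exp (A * C ^ 2)) :=
  thin_union (fun s C m => Dep b ξ s C m) (fun s => dig_indepQ b hb ξ hξ hirr s) D

end Pool.Agent.H723.QS
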