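import Mathlib
import Pool.Agent.H723.QS.QMain

/-! The rate of growth of the linear Lempel-Ziv complexity of the digits of algebraic numbers. -/

set_option autoImplicit false

open Finset

namespace Pool.Agent.H723.QS

open Pool.Agent.H648R2.S (dig)
open Pool.Agent.H723.LZ

theorem exc_card {P : ℕ → Prop} {B : ℝ} (h : Thin P B) (r : ℕ) (X : Finset ℕ)
    (hX : ∀ j ∈ X, r ≤ j ∧ P (2 ^ (j - r))) : (X.card : ℝ) ≤ B := by
  classical
  have hinj : Set.InjOn (fun j => 2 ^ (j - r)) (X : Set ℕ) := by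
    intro j hj j' hj' heq
    have h1 := (hX j hj).1
    have h2 := (hX j' hj').1
    have h3 : j - r = j' - r := Nat.pow_right_injective (le_refl 2) heq
    omega
  have h1 := h (X.image (fun j => 2 ^ (j - r))) ?_ ?_
  · rwa [Finset.card_image_of_injOn hinj] at h1
  · constructor
    · intro L hL
      obtain ⟨j, _, rfl⟩ := Finset.mem_image.mp hL
      exact Nat.one_le_two_pow
    · intro L hL L' hL' hlt
      obtain ⟨j, hj, rfl⟩ := Finset.mem_image.mp hL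
      obtain ⟨j', hj', rfl⟩ := Finset.mem_image.mp hL'
      have h3 : j - r < j' - r := (Nat.pow_lt_pow_iff_right (by norm_num)).mp hlt
      calc 2 * 2 ^ (j - r) = 2 ^ (j - r + 1) := by rw [pow_succ]; ring
        _ ≤ 2 ^ (j' - r) := Nat.pow_le_pow_right (by norm_num) h3
  · intro L hL
    obtain ⟨j, hj, rfl⟩ := Finset.mem_image.mp hL
    exact (hX j hj).2

/-- the main inequality with the number of the exceptional scales -/
theorem main_exc (b : ℕ) (hb : 2 ≤ b) (ξ : ℝ) (hξ : IsAlgebraic ℚ ξ) (hirr : Irrational ξ)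
    (D : ℕ) : ∃ A : ℝ, 0 ≤ A ∧ ∀ E ρ Q N : ℕ, Q = (2 * D + 2) * E + 1 →
      2 * (ρ + 1 + Q) ≤ Nat.log 2 N →
      4 * (Real.exp (A * ((2 ^ (ρ + 3) * Q : ℕ) : ℝ) ^ 2) + Q) ≤ Nat.log 2 N →
      ∀ (v : ℕ → ℝ) (z : ℕ), Produces D v N z →
      Nat.log 2 N * ((E + 1) * 2 ^ ρ) ≤ 8 * ((E + 1) * z) + 4 * (2 ^ ρ * ((ρ + 2) *
        ((Finset.range N).filter (fun t => v t ≠ (dig b ξ (t + 1) : ℝ))).card)) := by
  classical
  obtain ⟨A, hA, hdep⟩ := dep_allQ b hb ξ hξ hirr (2 * D + 2)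
  refine ⟨A, hA, ?_⟩
  intro E ρ Q N hQ hJ1 hJ2 v z hP
  have hQ1 : 1 ≤ Q := by omega
  set C : ℝ := ((2 ^ (ρ + 3) * Q : ℕ) : ℝ) with hC
  have hC1 : 1 ≤ C := by
    rw [hC]
    have : 1 ≤ 2 ^ (ρ + 3) * Q := Nat.mul_pos (by positivity) hQ1
    exact_mod_cast this
  set J := Nat.log 2 N with hJ
  have hN0 : N ≠ 0 := by
    rintro rfl
    simp at hJ
    omega
  set X : Finset ℕ := (Finset.Ico (J / 2) J).filter (fun j => ∃ D', D' ≤ 2 * D + 2 ∧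
    Dep b ξ D' C (2 ^ (j - (ρ + 1)) / Q)) with hX
  have hthin := (hdep C hC1).div (P' := fun M' => ∃ D', D' ≤ 2 * D + 2 ∧ Dep b ξ D' C (M' / Q))
    Q 0 hQ1 (fun m _ _ h => h)
  have hXc : (X.card : ℝ) ≤ Real.exp (A * C ^ 2) + (0 + Q : ℕ) := by
    apply exc_card hthin (ρ + 1)
    intro j hj
    obtain ⟨h1, h2⟩ := Finset.mem_filter.mp hj
    rw [Finset.mem_Ico] at h1
    exact ⟨by omega, h2⟩
  have hX4 : 4 * X.card ≤ J := by
    have h1 : ((4 * X.card : ℕ) : ℝ) ≤ J := by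
      push_cast at hXc ⊢
      linarith
    exact_mod_cast h1
  have hmain := main_count b ξ D E ρ N hN0 X (by
    intro j hj hjX
    have hj' := Finset.mem_Ico.mp hj
    refine ⟨by omega, ?_⟩
    intro s hs v hcopy
    have hQj : Q ≤ 2 ^ (j - ρ - 1) := by
      have h1 : Q ≤ j - ρ - 1 := by omega
      exact h1.trans (Nat.lt_two_pow_self).le
    apply local_stepQ b ξ (2 * D + 1) E ρ j (by omega) (by rw [← hQ]; exact hQj) ?_ s hs v hcopy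
    intro hcon
    apply hjX
    rw [hX, Finset.mem_filter]
    refine ⟨hj, ?_⟩
    rw [← hQ] at hcon
    have e1 : j - (ρ + 1) = j - ρ - 1 := by omega
    rw [e1]
    exact hcon) v z hP
  rw [← hJ] at hmain
  set k := ((Finset.range N).filter (fun t => v t ≠ (dig b ξ (t + 1) : ℝ))).card with hk
  have h1 : J ≤ 4 * (J - J / 2 - X.card) := by omega
  have h2 : (J - J / 2 - X.card) * ((E + 1) * 2 ^ ρ) ≤
      (E + 1) * (2 * z) + 2 ^ ρ * ((ρ + 2) * k) := by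
    rw [Nat.sub_mul]
    omega
  calc J * ((E + 1) * 2 ^ ρ) ≤ (4 * (J - J / 2 - X.card)) * ((E + 1) * 2 ^ ρ) :=
        Nat.mul_le_mul_right _ h1
    _ = 4 * ((J - J / 2 - X.card) * ((E + 1) * 2 ^ ρ)) := by ring
    _ ≤ 4 * ((E + 1) * (2 * z) + 2 ^ ρ * ((ρ + 2) * k)) := Nat.mul_le_mul_left _ h2
    _ = _ := by ring

theorem sq_le_pow (ρ : ℕ) : (ρ + 2) ^ 2 ≤ 5 * 2 ^ ρ := by
  rcases Nat.lt_or_ge ρ 3 with h | h
  · interval_cases ρ <;> norm_num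
  · induction ρ, h using Nat.le_induction with
    | base => norm_num
    | succ n hn ih =>
      have h1 : (n + 1 + 2) ^ 2 ≤ 2 * (n + 2) ^ 2 := by nlinarith
      calc (n + 1 + 2) ^ 2 ≤ 2 * (n + 2) ^ 2 := h1
        _ ≤ 2 * (5 * 2 ^ n) := Nat.mul_le_mul_left _ ih
        _ = 5 * 2 ^ (n + 1) := by rw [pow_succ]; ring

/-- instructions and errors -/
theorem main_err (b : ℕ) (hb : 2 ≤ b) (ξ : ℝ) (hξ : IsAlgebraic ℚ ξ) (hirr : Irrational ξ)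
    (D : ℕ) : ∃ A : ℝ, 0 ≤ A ∧ ∀ K N : ℕ, 1 ≤ K → Real.exp (A * (K : ℝ) ^ 5) ≤ Nat.log 2 N →
      ∀ (v : ℕ → ℝ) (z : ℕ), Produces D v N z →
      K * Nat.log 2 N ≤ z + ((Finset.range N).filter
        (fun t => v t ≠ (dig b ξ (t + 1) : ℝ))).card := by
  obtain ⟨A, hA, h⟩ := main_exc b hb ξ hξ hirr D
  obtain ⟨c, hc⟩ : ∃ c : ℝ, c = 80 * (128 * (8 * D + 9)) ^ 2 := ⟨_, rfl⟩
  have hc1 : 1 ≤ c := by
    rw [hc]
    have : (0 : ℝ) ≤ D := Nat.cast_nonneg _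
    nlinarith
  refine ⟨A * c + c + 12, by positivity, ?_⟩
  intro K N hK hJ v z hP
  obtain ⟨ρ, hρ⟩ : ∃ ρ, ρ = Nat.log 2 (8 * K) + 1 := ⟨_, rfl⟩
  have hρ1 : 8 * K ≤ 2 ^ ρ := by
    rw [hρ]
    exact (Nat.lt_pow_succ_log_self (by norm_num) _).le
  have hρ2 : 2 ^ ρ ≤ 16 * K := by
    rw [hρ, pow_succ]
    have := Nat.pow_log_le_self 2 (x := 8 * K) (by omega)
    omega
  obtain ⟨E, hE⟩ : ∃ E, E = 4 * K * (ρ + 2) := ⟨_, rfl⟩
  obtain ⟨Q, hQ⟩ : ∃ Q, Q = (2 * D + 2) * E + 1 := ⟨_, rfl⟩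
  have hQle : Q ≤ (8 * D + 9) * (K * (ρ + 2)) := by
    have h1 : 1 ≤ K * (ρ + 2) := Nat.mul_pos hK (by omega)
    rw [hQ, hE]
    nlinarith
  have hCle : 2 ^ (ρ + 3) * Q ≤ 128 * (8 * D + 9) * (K * (K * (ρ + 2))) := by
    calc 2 ^ (ρ + 3) * Q = 8 * 2 ^ ρ * Q := by rw [pow_add]; ring
      _ ≤ 8 * (16 * K) * ((8 * D + 9) * (K * (ρ + 2))) :=
          Nat.mul_le_mul (Nat.mul_le_mul_left _ hρ2) hQle
      _ = _ := by ring
  have hsq : (ρ + 2) ^ 2 ≤ 80 * K := by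
    have := sq_le_pow ρ
    omega
  have hC2 : (2 ^ (ρ + 3) * Q) ^ 2 ≤ (128 * (8 * D + 9)) ^ 2 * (K ^ 4 * (80 * K)) := by
    calc (2 ^ (ρ + 3) * Q) ^ 2 ≤ (128 * (8 * D + 9) * (K * (K * (ρ + 2)))) ^ 2 :=
          Nat.pow_le_pow_left hCle 2
      _ = (128 * (8 * D + 9)) ^ 2 * (K ^ 4 * (ρ + 2) ^ 2) := by ring
      _ ≤ _ := Nat.mul_le_mul_left _ (Nat.mul_le_mul_left _ hsq)
  have hC2R : ((2 ^ (ρ + 3) * Q : ℕ) : ℝ) ^ 2 ≤ c * (K : ℝ) ^ 5 := by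
    have h1 : (((2 ^ (ρ + 3) * Q) ^ 2 : ℕ) : ℝ) ≤
        (((128 * (8 * D + 9)) ^ 2 * (K ^ 4 * (80 * K)) : ℕ) : ℝ) := by exact_mod_cast hC2
    have h2 : (((128 * (8 * D + 9)) ^ 2 * (K ^ 4 * (80 * K)) : ℕ) : ℝ) = c * (K : ℝ) ^ 5 := by
      rw [hc]; push_cast; ring
    rw [h2] at h1
    push_cast at h1 ⊢
    exact h1
  have hK5 : (1 : ℝ) ≤ (K : ℝ) ^ 5 := one_le_pow₀ (by exact_mod_cast hK)
  have hC1 : (1 : ℝ) ≤ ((2 ^ (ρ + 3) * Q : ℕ) : ℝ) := by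
    have : 1 ≤ 2 ^ (ρ + 3) * Q := Nat.mul_pos (by positivity) (by omega)
    exact_mod_cast this
  have hQC : (Q : ℝ) ≤ c * (K : ℝ) ^ 5 := by
    have h1 : (Q : ℝ) ≤ ((2 ^ (ρ + 3) * Q : ℕ) : ℝ) := by
      have : Q ≤ 2 ^ (ρ + 3) * Q := Nat.le_mul_of_pos_left _ (by positivity)
      exact_mod_cast this
    refine le_trans ?_ hC2R
    nlinarith
  -- the size of `J`
  have hbig : 12 * Real.exp (A * c * (K : ℝ) ^ 5) * Real.exp (c * (K : ℝ) ^ 5) ≤ Nat.log 2 N := by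
    refine le_trans ?_ hJ
    have h1 : (12 : ℝ) ≤ Real.exp (12 * (K : ℝ) ^ 5) := by
      refine le_trans ?_ (le_exp_self _)
      linarith
    have h2 : Real.exp ((A * c + c + 12) * (K : ℝ) ^ 5) = Real.exp (12 * (K : ℝ) ^ 5) *
        Real.exp (A * c * (K : ℝ) ^ 5) * Real.exp (c * (K : ℝ) ^ 5) := by
      rw [← Real.exp_add, ← Real.exp_add]; congr 1; ring
    rw [h2]
    apply mul_le_mul_of_nonneg_right _ (Real.exp_pos _).le
    exact mul_le_mul_of_nonneg_right h1 (Real.exp_pos _).le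
  have hx1 : Real.exp (A * ((2 ^ (ρ + 3) * Q : ℕ) : ℝ) ^ 2) ≤ Real.exp (A * c * (K : ℝ) ^ 5) := by
    apply Real.exp_le_exp.mpr
    rw [mul_assoc]
    exact mul_le_mul_of_nonneg_left hC2R hA
  have hx2 : c * (K : ℝ) ^ 5 ≤ Real.exp (c * (K : ℝ) ^ 5) := le_exp_self _
  have hx3 : 1 ≤ Real.exp (A * c * (K : ℝ) ^ 5) := Real.one_le_exp (by positivity)
  have hx4 : 1 ≤ Real.exp (c * (K : ℝ) ^ 5) := Real.one_le_exp (by positivity)
  obtain ⟨e1, he1⟩ : ∃ e1, e1 = Real.exp (A * c * (K : ℝ) ^ 5) := ⟨_, rfl⟩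
  obtain ⟨e2, he2⟩ : ∃ e2, e2 = Real.exp (c * (K : ℝ) ^ 5) := ⟨_, rfl⟩
  rw [← he1] at hbig hx1 hx3
  rw [← he2] at hbig hx2 hx4
  have hee1 : e1 ≤ e1 * e2 := le_mul_of_one_le_right (by linarith) hx4
  have hee2 : e2 ≤ e1 * e2 := le_mul_of_one_le_left (by linarith) hx3
  have hmain := h E ρ Q N hQ (by
    have h1 : ((2 * (ρ + 1 + Q) : ℕ) : ℝ) ≤ Nat.log 2 N := by
      have h2 : (ρ : ℝ) + 1 ≤ Q := by
        have h3 : ρ + 1 ≤ Q := by
          rw [hQ, hE]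
          have h4 : 1 * (ρ + 2) ≤ 4 * K * (ρ + 2) := Nat.mul_le_mul_right _ (by omega)
          have h5 : 1 * (4 * K * (ρ + 2)) ≤ (2 * D + 2) * (4 * K * (ρ + 2)) :=
            Nat.mul_le_mul_right _ (by omega)
          omega
        exact_mod_cast h3
      push_cast
      nlinarith
    exact_mod_cast h1) (by
      push_cast at hx1 ⊢
      nlinarith) v z hP
  set k := ((Finset.range N).filter (fun t => v t ≠ (dig b ξ (t + 1) : ℝ))).card with hk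
  set J := Nat.log 2 N with hJd
  set R := 2 ^ ρ with hR
  have hR0 : 0 < R := by rw [hR]; positivity
  have h4 : (K * J) * ((E + 1) * R) ≤ (z + k) * ((E + 1) * R) := by
    calc (K * J) * ((E + 1) * R) = K * (J * ((E + 1) * R)) := by ring
      _ ≤ K * (8 * ((E + 1) * z) + 4 * (R * ((ρ + 2) * k))) := Nat.mul_le_mul_left _ hmain
      _ = (8 * K) * ((E + 1) * z) + (4 * K * (ρ + 2)) * (R * k) := by ring
      _ ≤ R * ((E + 1) * z) + (E + 1) * (R * k) :=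
          Nat.add_le_add (Nat.mul_le_mul_right _ hρ1) (Nat.mul_le_mul_right _ (by omega))
      _ = (z + k) * ((E + 1) * R) := by ring
  exact Nat.le_of_mul_le_mul_right h4 (by positivity)

/-- no errors -/
theorem main_exact (b : ℕ) (hb : 2 ≤ b) (ξ : ℝ) (hξ : IsAlgebraic ℚ ξ) (hirr : Irrational ξ)
    (D : ℕ) : ∃ A : ℝ, 0 ≤ A ∧ ∀ K N : ℕ, 1 ≤ K → Real.exp (A * (K : ℝ) ^ 2) ≤ Nat.log 2 N →
      ∀ (v : ℕ → ℝ) (z : ℕ), Produces D v N z → (∀ t < N, v t = (dig b ξ (t + 1) : ℝ)) →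
      K * Nat.log 2 N ≤ z := by
  obtain ⟨A, hA, h⟩ := main_exc b hb ξ hξ hirr D
  refine ⟨A * 128 ^ 2 + 32 + 8, by positivity, ?_⟩
  intro K N hK hJ v z hP hv
  obtain ⟨ρ, hρ⟩ : ∃ ρ, ρ = Nat.log 2 (8 * K) + 1 := ⟨_, rfl⟩
  have hρ1 : 8 * K ≤ 2 ^ ρ := by
    rw [hρ]
    exact (Nat.lt_pow_succ_log_self (by norm_num) _).le
  have hρ2 : 2 ^ ρ ≤ 16 * K := by
    rw [hρ, pow_succ]
    have := Nat.pow_log_le_self 2 (x := 8 * K) (by omega)
    omega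
  have hCle : 2 ^ (ρ + 3) * 1 ≤ 128 * K := by
    rw [pow_add]; omega
  have hCR : ((2 ^ (ρ + 3) * 1 : ℕ) : ℝ) ≤ 128 * K := by exact_mod_cast hCle
  have hC2R : ((2 ^ (ρ + 3) * 1 : ℕ) : ℝ) ^ 2 ≤ 128 ^ 2 * (K : ℝ) ^ 2 := by
    have h1 := pow_le_pow_left₀ (Nat.cast_nonneg _) hCR 2
    rw [mul_pow] at h1
    exact h1
  have hK1 : (1 : ℝ) ≤ K := by exact_mod_cast hK
  have hK2 : (1 : ℝ) ≤ (K : ℝ) ^ 2 := one_le_pow₀ hK1
  have hKK : (K : ℝ) ≤ (K : ℝ) ^ 2 := by nlinarith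
  have hx1 : Real.exp (A * ((2 ^ (ρ + 3) * 1 : ℕ) : ℝ) ^ 2) ≤
      Real.exp (A * 128 ^ 2 * (K : ℝ) ^ 2) := by
    apply Real.exp_le_exp.mpr
    rw [mul_assoc]
    exact mul_le_mul_of_nonneg_left hC2R hA
  have hx3 : 1 ≤ Real.exp (A * 128 ^ 2 * (K : ℝ) ^ 2) := Real.one_le_exp (by positivity)
  have hbig : 8 * Real.exp (A * 128 ^ 2 * (K : ℝ) ^ 2) * (32 * (K : ℝ) ^ 2) ≤ Nat.log 2 N := by
    refine le_trans ?_ hJ
    have h1 : (8 : ℝ) ≤ Real.exp (8 * (K : ℝ) ^ 2) := by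
      refine le_trans ?_ (le_exp_self _)
      linarith
    have h1' : 32 * (K : ℝ) ^ 2 ≤ Real.exp (32 * (K : ℝ) ^ 2) := le_exp_self _
    have h2 : Real.exp ((A * 128 ^ 2 + 32 + 8) * (K : ℝ) ^ 2) = Real.exp (8 * (K : ℝ) ^ 2) *
        Real.exp (A * 128 ^ 2 * (K : ℝ) ^ 2) * Real.exp (32 * (K : ℝ) ^ 2) := by
      rw [← Real.exp_add, ← Real.exp_add]; congr 1; ring
    rw [h2]
    apply mul_le_mul _ h1' (by positivity) (by positivity)
    exact mul_le_mul_of_nonneg_right h1 (Real.exp_pos _).le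
  obtain ⟨e1, he1⟩ : ∃ e1, e1 = Real.exp (A * 128 ^ 2 * (K : ℝ) ^ 2) := ⟨_, rfl⟩
  rw [← he1] at hbig hx1 hx3
  have hρR : (ρ : ℝ) ≤ 16 * K := by
    have h1 : ρ ≤ 16 * K := (Nat.lt_two_pow_self).le.trans hρ2
    exact_mod_cast h1
  have hK2e : (K : ℝ) ^ 2 ≤ e1 * (K : ℝ) ^ 2 := le_mul_of_one_le_left (by positivity) hx3
  have hee : e1 ≤ e1 * (K : ℝ) ^ 2 := le_mul_of_one_le_right (by linarith) hK2
  have hmain := h 0 ρ 1 N (by norm_num) (by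
    have h1 : ((2 * (ρ + 1 + 1) : ℕ) : ℝ) ≤ Nat.log 2 N := by
      push_cast
      linarith
    exact_mod_cast h1) (by
      push_cast at hx1 ⊢
      linarith) v z hP
  have hempty : (Finset.range N).filter (fun t => v t ≠ (dig b ξ (t + 1) : ℝ)) = ∅ := by
    rw [Finset.filter_eq_empty_iff]
    intro t ht
    push Not
    exact hv t (Finset.mem_range.mp ht)
  rw [hempty] at hmain
  simp only [Finset.card_empty, Nat.mul_zero, Nat.add_zero, Nat.zero_add, Nat.one_mul] at hmain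
  set J := Nat.log 2 N with hJd
  have h5 : 8 * (K * J) ≤ 8 * z := by
    calc 8 * (K * J) = J * (8 * K) := by ring
      _ ≤ J * 2 ^ ρ := Nat.mul_le_mul_left _ hρ1
      _ ≤ 8 * z := hmain
  omega

/-- from scales to logarithms -/
theorem rate (p : ℕ) (hp : 1 ≤ p) (A : ℝ) (hA : 0 ≤ A) : ∃ c : ℝ, 0 < c ∧ ∃ N₀ : ℕ, ∀ N ≥ N₀,
    ∀ W : ℕ, (∀ K : ℕ, 1 ≤ K → Real.exp (A * (K : ℝ) ^ p) ≤ Nat.log 2 N → K * Nat.log 2 N ≤ W) →
      c * (Real.log N * Real.log (Real.log N) ^ (1 / (p : ℝ))) ≤ W := by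
  have hp0 : (0 : ℝ) < p := by exact_mod_cast hp
  obtain ⟨B, hB⟩ : ∃ B, B = max A 1 := ⟨_, rfl⟩
  have hB1 : 1 ≤ B := by rw [hB]; exact le_max_right _ _
  have hAB : A ≤ B := by rw [hB]; exact le_max_left _ _
  have hB0 : 0 < B := by linarith
  refine ⟨(1 / B) ^ (1 / (p : ℝ)) / 2, by positivity, ?_⟩
  have hev : ∀ᶠ N : ℕ in Filter.atTop, B ≤ Real.log (Real.log N) := by
    have h1 : Filter.Tendsto (fun N : ℕ => Real.log (Real.log N)) Filter.atTop Filter.atTop :=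
      Real.tendsto_log_atTop.comp (Real.tendsto_log_atTop.comp tendsto_natCast_atTop_atTop)
    exact h1.eventually_ge_atTop B
  obtain ⟨N₁, hN₁⟩ := Filter.eventually_atTop.mp hev
  refine ⟨max N₁ 16, ?_⟩
  intro N hN W hW
  have hNN1 : N₁ ≤ N := (le_max_left _ _).trans hN
  have hN16 : 16 ≤ N := (le_max_right _ _).trans hN
  have hll := hN₁ N hNN1
  obtain ⟨J, hJ⟩ : ∃ J, J = Nat.log 2 N := ⟨_, rfl⟩
  rw [← hJ] at hW
  have hlogJ : Real.log N ≤ J := by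
    have h1 : N < 2 ^ (J + 1) := by rw [hJ]; exact Nat.lt_pow_succ_log_self (by norm_num) N
    have h2 : (N : ℝ) ≤ 2 ^ (J + 1) := by exact_mod_cast h1.le
    have h3 : Real.log N ≤ Real.log ((2 : ℝ) ^ (J + 1)) :=
      Real.log_le_log (by exact_mod_cast (by omega : 0 < N)) h2
    rw [Real.log_pow] at h3
    have h4 : (4 : ℕ) ≤ J := by
      rw [hJ]
      exact Nat.le_log_of_pow_le (by norm_num) (by norm_num; exact hN16)
    have h5 : (4 : ℝ) ≤ J := by exact_mod_cast h4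
    have h6 := Real.log_two_lt_d9
    push_cast at h3
    nlinarith
  have hlogN1 : 1 < Real.log N := by
    by_contra hcon
    push Not at hcon
    have h0 : 0 ≤ Real.log N := Real.log_nonneg (by exact_mod_cast (by omega : 1 ≤ N))
    have := Real.log_nonpos h0 hcon
    linarith
  obtain ⟨y, hy⟩ : ∃ y, y = Real.log (Real.log N) := ⟨_, rfl⟩
  rw [← hy] at hll ⊢
  have hyJ : Real.exp y ≤ J := by
    rw [hy, Real.exp_log (by linarith)]
    exact hlogJ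
  have hy0 : 0 < y := by linarith
  obtain ⟨x, hx⟩ : ∃ x, x = (y / B) ^ (1 / (p : ℝ)) := ⟨_, rfl⟩
  have hx1 : 1 ≤ x := by
    rw [hx]
    apply Real.one_le_rpow _ (by positivity)
    rwa [one_le_div hB0]
  obtain ⟨K, hK⟩ : ∃ K, K = ⌊x⌋₊ := ⟨_, rfl⟩
  have hK1 : 1 ≤ K := by
    rw [hK]; exact Nat.le_floor (by simpa using hx1)
  have hKx : (K : ℝ) ≤ x := by rw [hK]; exact Nat.floor_le (by linarith)
  have hKx2 : x / 2 ≤ K := by
    have h1 : x < K + 1 := by rw [hK]; exact Nat.lt_floor_add_one x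
    have h2 : (1 : ℝ) ≤ K := by exact_mod_cast hK1
    linarith
  have hxp : x ^ p = y / B := by
    rw [hx, ← Real.rpow_natCast, ← Real.rpow_mul (by positivity)]
    rw [one_div, inv_mul_cancel₀ hp0.ne', Real.rpow_one]
  have hKp : A * (K : ℝ) ^ p ≤ y := by
    have h1 : (K : ℝ) ^ p ≤ x ^ p := pow_le_pow_left₀ (Nat.cast_nonneg _) hKx p
    rw [hxp] at h1
    calc A * (K : ℝ) ^ p ≤ B * (y / B) := mul_le_mul hAB h1 (by positivity) hB0.le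
      _ = y := by field_simp
  have hfin := hW K hK1 ((Real.exp_le_exp.mpr hKp).trans hyJ)
  have hfin' : (K : ℝ) * J ≤ W := by exact_mod_cast hfin
  refine le_trans ?_ hfin'
  have hx' : x = (1 / B) ^ (1 / (p : ℝ)) * y ^ (1 / (p : ℝ)) := by
    rw [hx, ← Real.mul_rpow (by positivity) hy0.le]
    congr 1; ring
  calc (1 / B) ^ (1 / (p : ℝ)) / 2 * (Real.log N * y ^ (1 / (p : ℝ))) =
        x / 2 * Real.log N := by rw [hx']; ring
    _ ≤ K * J := mul_le_mul hKx2 hlogJ (by linarith) (Nat.cast_nonneg _)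

end Pool.Agent.H723.QS
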